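import Pool.Agent.W_1b8d5d_h57p.TubeR
import Pool.Agent.W_1b8d5d_p.Unit1

/-!
MP_1b8d5d_pr, Track P: cheap displacements along a slope, with a small lateral price (exact convexity of the means). (helper57)
-/

namespace Pool.Agent.W_1b8d5d_h57p

open MeasureTheory Set
open Pool.Agent.W_1b8d5d_h85 Pool.Agent.W_1b8d5d_p

variable {F : Fm} {κ K k1 K1 : ℝ} {d : Dr} {A : Set Dr}

/-- The direction with another slope. -/
def wv (d : Dr) (r : ℝ) : Dr := ⟨d.h1, d.h2, r⟩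

theorem wv_adm (hd : Adm F κ d) (r : ℝ) : Adm F κ (wv d r) := ⟨hd.κ0, hd.h1n, hd.h2n, hd.h1b, hd.h2b, hd.loop⟩

theorem X_wv (F : Fm) (d : Dr) (r : ℝ) : X F (wv d r) = X F d := rfl

theorem e_wv (F : Fm) (d : Dr) (r : ℝ) : e F (wv d r) = e F d := rfl

theorem VV_wv (F : Fm) (d : Dr) (r : ℝ) : VV F (wv d r) = VV F d := rfl

theorem epT_wv (F : Fm) (d : Dr) (r : ℝ) : epT F (wv d r) = epT F d := rfl

theorem epT_eq (F : Fm) (d : Dr) : epT F d = ep F d := rfl

/-- If the displacements next to the slope `d.v + s` are cheap then all displacements are cheap up to a small lateral price. -/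
theorem cheap_line (h : Dirs F κ K A) {ε : ℝ} (hε : 0 < ε) : ∃ δ : ℝ, 0 < δ ∧ ∃ n0 : ℕ, 1 ≤ n0 ∧ ∀ d ∈ A, ∀ m : ℕ, n0 ≤ m →
    ∀ s B : ℝ, |s| ≤ δ → 0 ≤ B → (∀ y : ℤ, |(y : ℝ) - (d.v + s) * m| ≤ 1 → e F d m y ≤ B) →
    ∀ y : ℤ, |(y : ℝ) - (d.v + s) * m| ≤ δ * m → e F d m y ≤ B + ε * |(y : ℝ) - (d.v + s) * m| := by
  obtain ⟨δ0, hδ0, hs⟩ := h.small (ε := ε / 8) (by positivity)
  obtain ⟨N, hN, hN1⟩ := hs δ0 hδ0 le_rfl
  obtain ⟨N1, hN1'⟩ := exists_nat_ge (8 / δ0)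
  refine ⟨δ0 / 4, by positivity, max N N1, hN.trans (le_max_left _ _), fun d hd m hm s B hs1 hB hc y hy => ?_⟩
  have hmN : N ≤ m := (le_max_left _ _).trans hm
  have hm1 : 1 ≤ m := hN.trans hmN
  have hm0 : (0 : ℝ) < m := by exact_mod_cast hm1
  have hδm : 8 ≤ δ0 * m := by
    have h1 : (N1 : ℝ) ≤ m := by exact_mod_cast (le_max_right _ _).trans hm
    have h2 := hN1'.trans h1
    rw [div_le_iff₀ hδ0] at h2
    linarith
  have hsm : |s * m| ≤ δ0 * m / 4 := by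
    rw [abs_mul, Nat.abs_cast]
    have := mul_le_mul_of_nonneg_right hs1 hm0.le
    linarith
  rw [abs_le] at hsm
  obtain ⟨c, hc0⟩ : ∃ c : ℝ, c = (d.v + s) * m := ⟨_, rfl⟩
  have hcv : c = d.v * m + s * m := by rw [hc0]; ring
  rw [← hc0] at hy hc ⊢
  have f1 := Int.floor_le c
  have f2 := Int.lt_floor_add_one c
  have f3 := Int.le_ceil c
  have f4 := Int.ceil_lt_add_one c
  have hy' := abs_le.1 hy
  by_cases hnear : |(y : ℝ) - c| ≤ 1
  · have := hc y hnear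
    have h1 : 0 ≤ ε * |(y : ℝ) - c| := mul_nonneg hε.le (abs_nonneg _)
    linarith
  · push Not at hnear
    rcases le_total c y with hyc | hyc
    · rw [abs_of_nonneg (by linarith)] at hnear ⊢
      -- right side
      have g1 := Int.floor_le (d.v * m + δ0 * m)
      have g2 := Int.lt_floor_add_one (d.v * m + δ0 * m)
      have e0 := hc ⌊c⌋ (by rw [abs_le]; constructor <;> linarith)
      have e1 := hN1 d hd m hmN ⌊d.v * m + δ0 * m⌋ (by rw [abs_le]; constructor <;> linarith)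
      have i0 : ⌊c⌋ ≤ y := by
        have : (⌊c⌋ : ℝ) ≤ y := by linarith
        exact_mod_cast this
      have i1 : y ≤ ⌊d.v * m + δ0 * m⌋ := by
        have : (y : ℝ) ≤ (⌊d.v * m + δ0 * m⌋ : ℤ) := by linarith
        exact_mod_cast this
      have hch := e_chord F d hm1 i0 i1
      have p1 : (y : ℝ) - ⌊c⌋ ≤ 2 * (y - c) := by linarith
      have p2 : δ0 * m / 2 ≤ ((⌊d.v * m + δ0 * m⌋ : ℤ) : ℝ) - ⌊c⌋ := by linarith
      have p3 : (0 : ℝ) ≤ y - ⌊c⌋ := by linarith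
      have p4 : (0 : ℝ) ≤ ((⌊d.v * m + δ0 * m⌋ : ℤ) : ℝ) - y := by
        have : (y : ℝ) ≤ (⌊d.v * m + δ0 * m⌋ : ℤ) := by exact_mod_cast i1
        linarith
      have p5 : (((⌊d.v * m + δ0 * m⌋ : ℤ) : ℝ) - ⌊c⌋) * e F d m y ≤
          (((⌊d.v * m + δ0 * m⌋ : ℤ) : ℝ) - ⌊c⌋) * (B + ε * (y - c)) := by
        have q1 := mul_le_mul_of_nonneg_left e0 p4
        have q2 := mul_le_mul_of_nonneg_left e1 p3
        have q3 : ((y : ℝ) - ⌊c⌋) * (ε / 8 * (δ0 * m)) ≤ (2 * (y - c)) * (ε / 8 * (δ0 * m)) :=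
          mul_le_mul_of_nonneg_right p1 (by positivity)
        have q4 : δ0 * m / 2 * (ε * (y - c)) ≤ (((⌊d.v * m + δ0 * m⌋ : ℤ) : ℝ) - ⌊c⌋) * (ε * (y - c)) :=
          mul_le_mul_of_nonneg_right p2 (mul_nonneg hε.le (by linarith))
        have q5 : 0 ≤ δ0 * m * (ε * (y - c)) := by
          have : 0 ≤ (y : ℝ) - c := by linarith
          positivity
        have q6 := mul_nonneg p3 hB
        nlinarith
      exact le_of_mul_le_mul_left p5 (by linarith)
    · rw [abs_of_nonpos (by linarith)] at hnear ⊢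
      -- left side
      have g1 := Int.le_ceil (d.v * m - δ0 * m)
      have g2 := Int.ceil_lt_add_one (d.v * m - δ0 * m)
      have e0 := hc ⌈c⌉ (by rw [abs_le]; constructor <;> linarith)
      have e1 := hN1 d hd m hmN ⌈d.v * m - δ0 * m⌉ (by rw [abs_le]; constructor <;> linarith)
      have i0 : y ≤ ⌈c⌉ := by
        have : (y : ℝ) ≤ ⌈c⌉ := by linarith
        exact_mod_cast this
      have i1 : ⌈d.v * m - δ0 * m⌉ ≤ y := by
        have : ((⌈d.v * m - δ0 * m⌉ : ℤ) : ℝ) ≤ y := by linarith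
        exact_mod_cast this
      have hch := e_chord F d hm1 i1 i0
      have p1 : (⌈c⌉ : ℝ) - y ≤ 2 * (c - y) := by linarith
      have p2 : δ0 * m / 2 ≤ (⌈c⌉ : ℝ) - ((⌈d.v * m - δ0 * m⌉ : ℤ) : ℝ) := by linarith
      have p3 : (0 : ℝ) ≤ ⌈c⌉ - y := by linarith
      have p4 : (0 : ℝ) ≤ y - ((⌈d.v * m - δ0 * m⌉ : ℤ) : ℝ) := by
        have : ((⌈d.v * m - δ0 * m⌉ : ℤ) : ℝ) ≤ y := by exact_mod_cast i1
        linarith
      have p5 : ((⌈c⌉ : ℝ) - ((⌈d.v * m - δ0 * m⌉ : ℤ) : ℝ)) * e F d m y ≤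
          ((⌈c⌉ : ℝ) - ((⌈d.v * m - δ0 * m⌉ : ℤ) : ℝ)) * (B + ε * (c - y)) := by
        have q1 := mul_le_mul_of_nonneg_left e0 p4
        have q2 := mul_le_mul_of_nonneg_left e1 p3
        have q3 : ((⌈c⌉ : ℝ) - y) * (ε / 8 * (δ0 * m)) ≤ (2 * (c - y)) * (ε / 8 * (δ0 * m)) :=
          mul_le_mul_of_nonneg_right p1 (by positivity)
        have q4 : δ0 * m / 2 * (ε * (c - y)) ≤ ((⌈c⌉ : ℝ) - ((⌈d.v * m - δ0 * m⌉ : ℤ) : ℝ)) * (ε * (c - y)) :=
          mul_le_mul_of_nonneg_right p2 (mul_nonneg hε.le (by linarith))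
        have q5 : 0 ≤ δ0 * m * (ε * (c - y)) := by
          have : 0 ≤ c - (y : ℝ) := by linarith
          positivity
        have q6 := mul_nonneg p3 hB
        nlinarith
      have p6 := le_of_mul_le_mul_left p5 (by linarith)
      have e9 : -((y : ℝ) - c) = c - y := by ring
      rw [e9]
      exact p6

/-- The mean of the positive part of the luck. -/
theorem VV_pos_le (hd : Adm F κ d) {n : ℕ} (hn : 1 ≤ n) (hV : ∫ η, VV F d η 0 n ∂(law F) ≤ 0) (a : Pt) (y : ℤ) :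
    ∫ η, max (VV F d η a n) 0 ∂(law F) ≤ epT F d n y := by
  have hi := VV_integrable hd a hn
  have h3 : ∫ η, max (VV F d η a n) 0 ∂(law F) ≤ ∫ η, (VV F d η a n + max (X F d η a n y) 0) ∂(law F) := by
    refine integral_mono hi.pos_part (hi.add (X_integrable hd a hn y).pos_part) fun η => ?_
    have h4 := neg_X_le_VV hd η a hn y
    simp only
    refine max_le ?_ ?_
    · linarith [le_max_right (X F d η a n y) 0]
    · linarith [le_max_left (X F d η a n y) 0]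
  rw [integral_add hi (X_integrable hd a hn y).pos_part, epT_at, VV_int] at h3
  linarith

/-- The positive part and the mean. -/
theorem epT_le (hd : Adm F κ d) {n : ℕ} (hn : 1 ≤ n) (hV : ∫ η, VV F d η 0 n ∂(law F) ≤ 0) (y z : ℤ) :
    epT F d n y ≤ e F d n y + epT F d n z := by
  have h1 := VV_pos_le hd hn hV 0 z
  have hi := VV_integrable hd 0 hn
  have hX := X_integrable hd 0 hn y
  have h2 : epT F d n y ≤ ∫ η, (X F d η 0 n y + max (VV F d η 0 n) 0) ∂(law F) := by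
    unfold epT
    refine integral_mono hX.pos_part (hX.add hi.pos_part) fun η => ?_
    have h4 := neg_X_le_VV hd η 0 hn y
    simp only
    refine max_le ?_ ?_
    · linarith [le_max_right (VV F d η 0 n) 0]
    · linarith [le_max_left (VV F d η 0 n) 0]
  rw [integral_add hX hi.pos_part] at h2
  have h3 : ∫ η, X F d η 0 n y ∂(law F) = e F d n y := rfl
  linarith

end Pool.Agent.W_1b8d5d_h57p
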