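import Pool.Agent.W_1b8d5d_h57p.Tube0

/-!
MP_1b8d5d_pr, Track P: the cost in a narrow tube. (helper57)
-/

namespace Pool.Agent.W_1b8d5d_h57p

open MeasureTheory Set
open Pool.Agent.W_1b8d5d_h85 Pool.Agent.W_1b8d5d_p

variable {F : Fm} {κ k1 K1 : ℝ} {d : Dr} {η : Env}

/-- The edges of the tube of half width `D` around the line of slope `d.v` through `a`. -/
def TbE (F : Fm) (d : Dr) (a : Pt) (D : ℝ) : Set Edge :=
  {e | |latV F d e.1 - lat d a| < D ∧ |latV F d (e.1 + dir e.2) - lat d a| < D}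

/-- The cost of the displacement `(n, y)` from `a` in the tube. -/
noncomputable def XT (F : Fm) (d : Dr) (D : ℝ) (η : Env) (a : Pt) (n : ℕ) (y : ℤ) : ℝ :=
  TR (F.co.slab a.1 (a.1 + n) ∩ TbE F d a D) (F.tau η) (F.co.vt a) (F.co.vt (a + ((n : ℤ), y))) -
    (al F.co d * n + be F.co d * y)

/-- There is a walk of displacement `(n, y)` in the tube. -/
def HasT (F : Fm) (d : Dr) (D : ℝ) (n : ℕ) (y : ℤ) : Prop :=
  Nonempty (WK (F.co.slab 0 (0 + n) ∩ TbE F d 0 D) (F.co.vt 0) (F.co.vt (0 + ((n : ℤ), y))))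

theorem latV_add (F : Fm) (d : Dr) (z : V) (b : Pt) : latV F d (z + F.co.vt b) = latV F d z + lat d b := by
  rw [← latV_vt F d b]
  unfold latV
  rw [Co.ps_add, Co.tm_add]
  push_cast
  ring

theorem lat_add (d : Dr) (a b : Pt) : lat d (a + b) = lat d a + lat d b := by
  unfold lat
  simp only [Prod.fst_add, Prod.snd_add]
  push_cast
  ring

theorem lat_zero (d : Dr) : lat d 0 = 0 := by
  unfold lat
  simp

theorem mem_TbE_shift (F : Fm) (d : Dr) (D : ℝ) (a b : Pt) (x : V) (s : Bool) :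
    (x, s) ∈ TbE F d a D ↔ (x + F.co.vt b, s) ∈ TbE F d (a + b) D := by
  unfold TbE
  simp only [Set.mem_ofPred_eq]
  have e1 : x + F.co.vt b + dir s = x + dir s + F.co.vt b := by abel
  rw [e1, latV_add, latV_add, lat_add]
  have e2 : ∀ r : ℝ, r + lat d b - (lat d a + lat d b) = r - lat d a := fun r => by ring
  rw [e2, e2]

/-- Shift covariance. -/
theorem XT_shp (F : Fm) (d : Dr) (D : ℝ) (b : Pt) (η : Env) (a : Pt) (n : ℕ) (y : ℤ) :
    XT F d D (F.shp b η) a n y = XT F d D η (a + b) n y := by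
  unfold XT Fm.shp
  rw [tau_sh, TR_sh (S' := F.co.slab (a.1 + b.1) (a.1 + n + b.1) ∩ TbE F d (a + b) D) (F.co.vt b) (fun x s => by
      rw [Set.mem_inter_iff, Set.mem_inter_iff, ← mem_TbE_shift, (sh_mem_slab F.co b a.1 (a.1 + n) x s)]),
    ← Co.vt_add, ← Co.vt_add, show a + ((n : ℤ), y) + b = a + b + ((n : ℤ), y) by abel]
  have e1 : a.1 + (n : ℤ) + b.1 = (a + b).1 + n := by
    rw [Prod.fst_add]
    ring
  rw [e1]
  rfl

theorem XT_meas (F : Fm) (d : Dr) (D : ℝ) (a : Pt) (n : ℕ) (y : ℤ) : Measurable fun η => XT F d D η a n y :=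
  ((TR_meas _ _ _).comp (tau_meas F)).sub_const _

theorem XT_dep (F : Fm) (d : Dr) (D : ℝ) (a : Pt) (n : ℕ) (y : ℤ) :
    DependsOn (fun η => XT F d D η a n y) (F.co.slab a.1 (a.1 + n) ∩ TbE F d a D) := by
  intro η η' h
  have := dep_tau (F := F) (TR_dep (F.co.slab a.1 (a.1 + n) ∩ TbE F d a D) (F.co.vt a) (F.co.vt (a + ((n : ℤ), y)))) h
  unfold XT
  simp only at this ⊢
  rw [this]

private theorem adj_tr57 (z : V) : ∀ x y, grid.Adj x y →
    grid.Adj (x + z) (y + z) ∧ ke s(x + z, y + z) = (fun e : Edge => (e.1 + z, e.2)) (ke s(x, y)) := by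
  rintro x y ⟨s, h | h⟩
  · subst h
    refine ⟨⟨s, Or.inl (by abel)⟩, ?_⟩
    rw [ke_dir, show x + dir s + z = x + z + dir s by abel, ke_dir]
  · subst h
    refine ⟨⟨s, Or.inr (by abel)⟩, ?_⟩
    rw [ke_dir', show y + dir s + z = y + z + dir s by abel, ke_dir']

/-- Translation of a walk. -/
theorem walk_tr57 (z : V) {x y : V} (w : grid.Walk x y) :
    ∃ w' : grid.Walk (x + z) (y + z), wedges w' = (wedges w).map fun e : Edge => (e.1 + z, e.2) := by
  induction w with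
  | nil => exact ⟨.nil, by simp [wedges]⟩
  | @cons u v y h w ih =>
    obtain ⟨w', hw'⟩ := ih
    refine ⟨SimpleGraph.Walk.cons (adj_tr57 z u v h).1 w', ?_⟩
    have h1 : wedges (SimpleGraph.Walk.cons (adj_tr57 z u v h).1 w') = ke s(u + z, v + z) :: wedges w' := by
      unfold wedges; rw [SimpleGraph.Walk.edges_cons, List.map_cons]
    have h2 : wedges (SimpleGraph.Walk.cons h w) = ke s(u, v) :: wedges w := by
      unfold wedges; rw [SimpleGraph.Walk.edges_cons, List.map_cons]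
    rw [h1, h2, List.map_cons, hw', (adj_tr57 z u v h).2]

theorem hasT_at {D : ℝ} {n : ℕ} {y : ℤ} (h : HasT F d D n y) (a : Pt) :
    Nonempty (WK (F.co.slab a.1 (a.1 + n) ∩ TbE F d a D) (F.co.vt a) (F.co.vt (a + ((n : ℤ), y)))) := by
  obtain ⟨⟨w, hw⟩⟩ := h
  obtain ⟨w', hw'⟩ := walk_tr57 (F.co.vt a) w
  have e1 : F.co.vt 0 + F.co.vt a = F.co.vt a := by rw [← Co.vt_add, zero_add]
  have e2 : F.co.vt (0 + ((n : ℤ), y)) + F.co.vt a = F.co.vt (a + ((n : ℤ), y)) := by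
    rw [← Co.vt_add, zero_add, add_comm]
  refine ⟨⟨w'.copy e1 e2, ?_⟩⟩
  intro e he
  have he' : e ∈ wedges w' := by
    unfold wedges at he ⊢
    rwa [SimpleGraph.Walk.edges_copy] at he
  rw [hw', List.mem_map] at he'
  obtain ⟨e', he'', rfl⟩ := he'
  have h1 := hw e' he''
  have h2 := (mem_TbE_shift F d D 0 a e'.1 e'.2).1 h1.2
  rw [zero_add] at h2
  refine ⟨?_, h2⟩
  have h3 := (sh_mem_slab F.co a 0 (0 + n) e'.1 e'.2).2
  have h4 := h3 (by exact h1.1)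
  rwa [zero_add, zero_add, add_comm (n : ℤ)] at h4

/-- The cost in the tube is at least the cost. -/
theorem X_le_XT {D : ℝ} {n : ℕ} {y : ℤ} (h : HasT F d D n y) (η : Env) (a : Pt) : X F d η a n y ≤ XT F d D η a n y := by
  have h1 := TR_anti (bd_tau F η) F.a0.le (hasT_at h a) (Set.inter_subset_left (s := F.co.slab a.1 (a.1 + n)) (t := TbE F d a D))
  unfold X XT TT
  linarith

/-- The minimal walk in the tube. -/
theorem XT_of_not_bad {D Y : ℝ} {n : ℕ} (hn : 1 ≤ n) {y : ℤ} (η : Env) (hX : X F d η 0 n y ≤ Y)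
    (hbad : ¬ ∃ w : grid.Walk (F.co.vt 0) (F.co.vt (0 + ((n : ℤ), y))), (∀ z ∈ w.support, 0 ≤ F.co.tm z ∧
      F.co.tm z ≤ F.co.L * n) ∧ exc F d η w ≤ Y ∧ ∃ z ∈ w.support, D ≤ |latV F d z|) :
    HasT F d D n y ∧ XT F d D η 0 n y ≤ Y := by
  have hL := F.co.L_pos
  obtain ⟨w, -, hw1, hw2⟩ := TR_min (bd_tau F η) F.a0 (F.co.ne_vt 0 hn y)
  have hsup := Co.tm_of_slab hw1 (by
    have e1 : F.co.tm (F.co.vt 0) = 0 := by rw [Co.tm_vt]; simp
    rw [e1]
    simp only [Prod.fst_zero, mul_zero, zero_add]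
    exact ⟨le_rfl, mul_nonneg (by omega) (by omega)⟩)
  simp only [Prod.fst_zero, mul_zero, zero_add] at hsup
  have he : exc F d η w = X F d η 0 n y := by
    unfold exc
    rw [hw2, X_eq]
    have e1 : F.co.vt (0 + ((n : ℤ), y)) - F.co.vt 0 = F.co.vt ((n : ℤ), y) := by
      rw [Co.vt_add]
      abel
    rw [e1]
    rfl
  have hin : ∀ z ∈ w.support, |latV F d z| < D := by
    intro z hz
    by_contra hcon
    push Not at hcon
    exact hbad ⟨w, hsup, by rw [he]; exact hX, z, hz, hcon⟩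
  have hed : ∀ e ∈ wedges w, e ∈ F.co.slab (0 : Pt).1 ((0 : Pt).1 + n) ∩ TbE F d 0 D := by
    intro e he'
    obtain ⟨h1, h2⟩ := wedges_support w he'
    refine ⟨hw1 e he', ?_⟩
    unfold TbE
    rw [Set.mem_ofPred_eq, lat_zero, sub_zero, sub_zero]
    exact ⟨hin _ h1, hin _ h2⟩
  refine ⟨⟨⟨w, hed⟩⟩, ?_⟩
  have h3 := TR_le (bd_tau F η) F.a0.le w hed
  unfold XT
  rw [hw2] at h3
  have h4 : X F d η 0 n y = TR (F.co.slab (0 : Pt).1 ((0 : Pt).1 + n)) (F.tau η) (F.co.vt 0)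
    (F.co.vt (0 + ((n : ℤ), y))) - (al F.co d * n + be F.co d * y) := rfl
  linarith

/-- **THE TUBE, probability form.** -/
theorem tube_prob (hd : Adm F κ d) (hk : Lat F κ k1 K1 d) {n N : ℕ} (hn : 1 ≤ n) (hN : 1 ≤ N) {y : ℤ} {D Y G a A Λ ε τ : ℝ}
    (hy : |(y : ℝ) - d.v * n| ≤ 1) (hD : 0 < D) (hτ : τ = 1 ∨ τ = -1) (ha : 0 < a) (hcheap : Cheap0 F d k1 N n Λ a)
    (hΛ0 : 0 ≤ Λ) (hΛ : Y + G + 2 * CL F k1 K1 + bb F * F.co.L * n ≤ k1 * Λ) (hΛ' : -G + bb F * F.co.L * n ≤ k1 * Λ)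
    (hp : ∀ z : ℤ, |(z : ℝ) - (d.v * (n + 2 * N : ℕ) + τ * D)| ≤ 3 →
      (law F).real {η | X F d η 0 (n + 2 * N) z ≤ Y + G + 2 * CL F k1 K1 + 2 * (a + k1)} ≤ ε)
    (hV : ∫ η, VV F d η 0 (n + 2 * N) ∂(law F) ≤ 0) (hA : ∃ z : ℤ, epT F d (n + 2 * N) z ≤ A) (hG : 2 * (a + k1) < G)
    (hY : 0 < Y) :
    1 - (epT F d n y / Y + 32 / 9 * (ε + A / (G - 2 * (a + k1)))) ≤
      (law F).real {η | HasT F d D n y ∧ XT F d D η 0 n y ≤ Y ∧ XT F d D η 0 n y ≤ X F d η 0 n y} := by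
  have e0 : latV F d (F.co.vt 0) = 0 := by rw [latV_vt, lat_zero]
  have e1 : |latV F d (F.co.vt (0 + ((n : ℤ), y)))| ≤ 1 := by
    rw [latV_vt, zero_add]
    unfold lat
    simp only [Int.cast_natCast]
    exact hy
  rw [abs_le] at e1
  have h1 := tube0 hd hk hn hN (x := F.co.vt 0) (y := F.co.vt (0 + ((n : ℤ), y))) (D := D) (Y := Y) (G := G) (a := a) (A := A)
    (Λ := Λ) (ε := ε) (τ := τ) (by rw [e0, abs_zero]; exact hD) hτ ha hΛ0 hcheap hΛ hΛ' (fun z hz => hp z (by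
      rw [e0, sub_zero] at hz
      linarith)) (fun z hz => hp z (by
      rw [abs_le] at hz ⊢
      constructor <;> linarith [hz.1, hz.2, e1.1, e1.2])) hV hA hG
  set B : Set Env := {η | ∃ w : grid.Walk (F.co.vt 0) (F.co.vt (0 + ((n : ℤ), y))), (∀ z ∈ w.support, 0 ≤ F.co.tm z ∧
      F.co.tm z ≤ F.co.L * n) ∧ exc F d η w ≤ Y ∧ ∃ z ∈ w.support, D ≤ |latV F d z|} with hB
  have hm := X_meas F d 0 n y
  have h2 : (law F).real {η | Y < X F d η 0 n y} ≤ epT F d n y / Y := by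
    have h3 := mul_meas_ge_le_integral_of_nonneg (μ := law F) (f := fun η => max (X F d η 0 n y) 0)
      (Filter.Eventually.of_forall fun η => le_max_right _ _) (X_integrable hd 0 hn y).pos_part Y
    rw [le_div_iff₀ hY]
    have h4 : (law F).real {η | Y < X F d η 0 n y} ≤ (law F).real {η | Y ≤ max (X F d η 0 n y) 0} :=
      measureReal_mono (fun η hη => le_trans (show Y < X F d η 0 n y from hη).le (le_max_left _ _)) (measure_ne_top _ _)
    calc (law F).real {η | Y < X F d η 0 n y} * Y ≤ (law F).real {η | Y ≤ max (X F d η 0 n y) 0} * Y :=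
          mul_le_mul_of_nonneg_right h4 hY.le
      _ = Y * (law F).real {η | Y ≤ max (X F d η 0 n y) 0} := mul_comm _ _
      _ ≤ epT F d n y := h3
  have hcov : (Set.univ : Set Env) ⊆ ({η | Y < X F d η 0 n y} ∪ B) ∪
      {η | HasT F d D n y ∧ XT F d D η 0 n y ≤ Y ∧ XT F d D η 0 n y ≤ X F d η 0 n y} := by
    intro η _
    by_cases c1 : Y < X F d η 0 n y
    · exact Or.inl (Or.inl c1)
    · by_cases c2 : η ∈ B
      · exact Or.inl (Or.inr c2)
      · have h1 := XT_of_not_bad hn η (Y := X F d η 0 n y) (le_refl (X F d η 0 n y)) (D := D) (fun ⟨w, q1, q2, q3⟩ =>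
          c2 ⟨w, q1, q2.trans (not_lt.1 c1), q3⟩)
        exact Or.inr ⟨h1.1, h1.2.trans (not_lt.1 c1), h1.2⟩
  have h5 := measureReal_mono (μ := law F) hcov (measure_ne_top _ _)
  rw [probReal_univ] at h5
  have h6 := measureReal_union_le (μ := law F) ({η | Y < X F d η 0 n y} ∪ B)
    {η | HasT F d D n y ∧ XT F d D η 0 n y ≤ Y ∧ XT F d D η 0 n y ≤ X F d η 0 n y}
  have h7 := measureReal_union_le (μ := law F) {η | Y < X F d η 0 n y} B
  linarith

end Pool.Agent.W_1b8d5d_h57p
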