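import Pool.Agent.W_1b8d5d_h57p.TubeL
import Pool.Agent.W_1b8d5d_h4p.ToolZ

/-!
MP_1b8d5d_pr, Track P: the inputs of the tubes: `VN` (mean of the luck) and `MCR` ((MC) for restricted passage times). (helper57)
-/

namespace Pool.Agent.W_1b8d5d_h57p

open MeasureTheory Set
open Pool.Agent.W_1b8d5d_h85 Pool.Agent.W_1b8d5d_p Pool.Agent.W_1b8d5d_h4p

variable {F : Fm} {κ K c0 C0 : ℝ} {A : Set Dr}

theorem vn_of (h : Dirs F κ K A) : VN F A := fun d hd _ hm => VV_mean_le (h.adm d hd) (h.touch d hd) hm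

/-- Restricted passage times are in the class of the luck functionals. -/
theorem lk_XS {d : Dr} (hd : Adm F κ d) {n : ℕ} (hn : 1 ≤ n) {S : Set Edge} {y : ℤ} (hS : S ⊆ F.co.slab 0 n)
    (hne : Nonempty (WK S (F.co.vt 0) (F.co.vt (0 + ((n : ℤ), y))))) :
    Lk F κ d n fun τ => -(TR S τ (F.co.vt 0) (F.co.vt (0 + ((n : ℤ), y))) - (al F.co d * n + be F.co d * y)) := by
  have ha' : 0 < F.a - κ / 2 := by linarith [hd.κ_lt, hd.κ0]
  refine ⟨hn, ?_, ?_⟩
  · have h1 : Fz (F.a - κ / 2) F.b S fun τ => -TR S τ (F.co.vt 0) (F.co.vt (0 + ((n : ℤ), y))) := fz_TR ha' hne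
    exact ((h1.mono hS).add_const (al F.co d * n + be F.co d * y)).congr fun τ _ => by ring
  · intro τ hτ
    refine le_trans ?_ (le_VT hd hτ 0 hn y)
    have h1 : TR (F.co.slab (0 : Pt).1 ((0 : Pt).1 + n)) τ (F.co.vt 0) (F.co.vt (0 + ((n : ℤ), y))) ≤
        TR S τ (F.co.vt 0) (F.co.vt (0 + ((n : ℤ), y))) := by
      refine TR_anti (a := F.a - κ / 2) (b := F.b) hτ ha'.le hne ?_
      have e1 : (0 : Pt).1 + (n : ℤ) = n := by simp
      rw [e1]
      exact hS
    unfold TT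
    linarith

theorem mcr_of (hL : LawH F c0 C0) (h : Dirs F κ K A) : MCR F A := by
  intro p hp
  obtain ⟨T, C, hT, hC, hmc⟩ := mc0 hL hp
  have hCr := Cr_pos F
  have hTr : (1 : ℝ) ≤ T := by exact_mod_cast hT
  refine ⟨2 + C / Cr F + 6 * T, by positivity, 1, fun d hd n hn S y hS hne u hu => ?_⟩
  have h1 := hmc κ d (h.adm d hd) (h.touch d hd) n (T * n) le_rfl _ (lk_XS (h.adm d hd) hn hS hne) u (by
    refine hu.trans_eq ?_
    congr 1
    ext η
    rw [Set.mem_ofPred_eq, Set.mem_ofPred_eq, neg_le_neg_iff]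
    rfl)
  have e1 : -∫ η, (fun τ : Env => -(TR S τ (F.co.vt 0) (F.co.vt (0 + ((n : ℤ), y))) - (al F.co d * n + be F.co d * y)))
      (F.tau η) ∂(law F) = ∫ η, XS F d S η n y ∂(law F) := by
    rw [← integral_neg]
    refine integral_congr_ae (Filter.Eventually.of_forall fun η => ?_)
    simp only [neg_neg]
    rfl
  rw [e1] at h1
  refine h1.trans ?_
  have hE0 := EE_pos F d n
  have hE := EE_mul F d n (k := T) hT
  have hCrE := Cr_le_EE F d n
  have hu0 := le_max_left u 0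
  have hu1 := le_max_right u 0
  have hC2 : C ≤ C / Cr F * EE F d n := by
    rw [div_mul_eq_mul_div, le_div_iff₀ hCr]
    exact mul_le_mul_of_nonneg_left hCrE hC.le
  have hCC : 0 ≤ C / Cr F := by positivity
  have p1 : 0 ≤ (C / Cr F) * max u 0 := mul_nonneg hCC hu1
  have p2 : 0 ≤ (T : ℝ) * max u 0 := mul_nonneg (by linarith) hu1
  have p3 : 0 ≤ (T : ℝ) * EE F d n := mul_nonneg (by linarith) hE0.le
  have p4 : 0 ≤ (C / Cr F) * EE F d n := mul_nonneg hCC hE0.le
  refine max_le (max_le ?_ ?_) ?_ <;> linarith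

end Pool.Agent.W_1b8d5d_h57p
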