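import Pool.Agent.W_1b8d5d_h57p.TubeC

/-!
MP_1b8d5d_pr, Track P: the narrow tube around a straight line, in means, uniformly in the direction. Inputs: the travellers
(`Dirs`), `∫ VV ≤ 0`, and (MC) for restricted passage times. (helper57)
-/

namespace Pool.Agent.W_1b8d5d_h57p

open MeasureTheory Set
open Pool.Agent.W_1b8d5d_h85 Pool.Agent.W_1b8d5d_p

variable {F : Fm} {κ K : ℝ} {A : Set Dr}

/-- The cost of the displacement `(n, y)` from `0` with edges in `S`. -/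
noncomputable def XS (F : Fm) (d : Dr) (S : Set Edge) (η : Env) (n : ℕ) (y : ℤ) : ℝ :=
  TR S (F.tau η) (F.co.vt 0) (F.co.vt (0 + ((n : ℤ), y))) - (al F.co d * n + be F.co d * y)

/-- **(MC)** for restricted passage times: cheap with a positive probability implies cheap in the mean. -/
def MCR (F : Fm) (A : Set Dr) : Prop :=
  ∀ p : ℝ, 0 < p → ∃ C : ℝ, 0 < C ∧ ∃ n0 : ℕ, ∀ d ∈ A, ∀ n : ℕ, n0 ≤ n → ∀ (S : Set Edge) (y : ℤ),
    S ⊆ F.co.slab 0 n → Nonempty (WK S (F.co.vt 0) (F.co.vt (0 + ((n : ℤ), y)))) → ∀ u : ℝ,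
    p ≤ (law F).real {η | XS F d S η n y ≤ u} → ∫ η, XS F d S η n y ∂(law F) ≤ C * (max u 0 + EE F d n)

/-- The luck has a nonpositive mean. -/
def VN (F : Fm) (A : Set Dr) : Prop := ∀ d ∈ A, ∀ m : ℕ, 1 ≤ m → ∫ η, VV F d η 0 m ∂(law F) ≤ 0

theorem XS_slab (F : Fm) (d : Dr) (η : Env) (n : ℕ) (y : ℤ) : XS F d (F.co.slab 0 n) η n y = X F d η 0 n y := by
  have e1 : (0 : Pt).1 + (n : ℤ) = n := by simp
  unfold XS X TT
  rw [e1]
  rfl

theorem XS_tube (F : Fm) (d : Dr) (r D : ℝ) (η : Env) (n : ℕ) (y : ℤ) :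
    XS F d (F.co.slab 0 n ∩ TbE F (wv d r) 0 D) η n y = XT F (wv d r) D η 0 n y := by
  have e1 : (0 : Pt).1 + (n : ℤ) = n := by simp
  unfold XS XT
  rw [e1]
  rfl

/-- (MC) for the cost, as a price. -/
theorem MCR.price (h : MCR F A) {p : ℝ} (hp : 0 < p) : ∃ C : ℝ, 0 < C ∧ ∃ n0 : ℕ, ∀ d ∈ A, ∀ n : ℕ, n0 ≤ n → ∀ (y : ℤ)
    (u : ℝ), C * (max u 0 + EE F d n) < e F d n y → (law F).real {η | X F d η 0 n y ≤ u} ≤ p := by
  obtain ⟨C, hC, n0, h1⟩ := h p hp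
  refine ⟨C, hC, max n0 1, fun d hd n hn y u hu => ?_⟩
  by_contra hcon
  push Not at hcon
  have hn1 : 1 ≤ n := (le_max_right _ _).trans hn
  have hne := F.co.ne_vt 0 hn1 y
  have e1 : (0 : Pt).1 + (n : ℤ) = n := by simp
  rw [e1] at hne
  have h2 := h1 d hd n ((le_max_left _ _).trans hn) (F.co.slab 0 n) y Set.Subset.rfl hne u (by
    simp_rw [XS_slab]
    exact hcon.le)
  simp_rw [XS_slab] at h2
  exact absurd hu (not_lt.2 h2)

/-- **THE TUBE AROUND A STRAIGHT LINE.** Slope `d.v + s`, half width `D`, duration `n`, expensive side `τ`, unit at most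
`B`. The expensive displacement has the duration `(2 R + 1) n`. -/
theorem tube_line1 (h : Dirs F κ K A) (hmc : MCR F A) (hVN : VN F A) {ε c : ℝ} (hε : 0 < ε) (hε1 : ε ≤ 1 / 2)
    (hc : 1 ≤ c) :
    ∃ (R n0 : ℕ) (C b0 s0 : ℝ), 1 ≤ R ∧ 1 ≤ n0 ∧ 1 ≤ C ∧ 0 < b0 ∧ 0 < s0 ∧ ∀ d ∈ A, ∀ n : ℕ, n0 ≤ n → ∀ s D B τ : ℝ,
      |s| ≤ s0 → 0 < D → (τ = 1 ∨ τ = -1) → EE F d n ≤ B → B ≤ b0 * n →
      (∀ m : ℕ, n ≤ m → m ≤ (2 * R + 1) * n → ∀ y : ℤ, |(y : ℝ) - (d.v + s) * m| ≤ 1 → e F d m y ≤ c * B) →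
      (∀ y : ℤ, |(y : ℝ) - ((d.v + s) * ((2 * R + 1) * n : ℕ) + τ * D)| ≤ 3 → C * B < e F d ((2 * R + 1) * n) y) →
      ∀ y : ℤ, |(y : ℝ) - (d.v + s) * n| ≤ 1 →
        1 - ε ≤ (law F).real {η | XT F (wv d (d.v + s)) D η 0 n y ≤ C * B} ∧ HasT F (wv d (d.v + s)) D n y ∧
        ∫ η, XT F (wv d (d.v + s)) D η 0 n y ∂(law F) ≤ C * B ∧
        1 - ε ≤ (law F).real {η | XT F (wv d (d.v + s)) D η 0 n y ≤ X F d η 0 n y} := by
  rcases A.eq_empty_or_nonempty with hA | ⟨d₀, hd₀⟩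
  · refine ⟨1, 1, 1, 1, 1, le_rfl, le_rfl, le_rfl, one_pos, one_pos, fun d hd => ?_⟩
    rw [hA] at hd
    exact absurd hd (Set.notMem_empty d)
  have hκ : 0 < κ := (h.adm d₀ hd₀).κ0
  have hK : 0 ≤ K := (abs_nonneg _).trans (h.slope d₀ hd₀)
  have hR1 : (1 : ℝ) ≤ F.co.R := by exact_mod_cast F.co.R_pos
  have hL0 : (0 : ℝ) ≤ F.co.L := by exact_mod_cast (show (0 : ℤ) ≤ F.co.L by have := F.co.L_pos; omega)
  have hbb : 0 < bb F := by
    have h1 := F.a0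
    have h2 := F.ab
    unfold bb
    linarith
  have hCr := Cr_pos F
  obtain ⟨K1, hK1⟩ : ∃ K1 : ℝ, K1 = F.co.R + K + 1 := ⟨_, rfl⟩
  have hK10 : 0 < K1 := by linarith
  obtain ⟨k1, hk1⟩ : ∃ k1 : ℝ, k1 = κ / K1 := ⟨_, rfl⟩
  have hk0 : 0 < k1 := by rw [hk1]; positivity
  obtain ⟨δ, hδ, N1, hN1, hline⟩ := cheap_line h (ε := k1 / 8) (by positivity)
  -- the number of durations
  obtain ⟨R, hR⟩ := exists_nat_ge (max 1 (((bb F * F.co.L + 2) / k1 + 1) / δ))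
  have hR0 : 1 ≤ R := by exact_mod_cast (le_max_left _ _).trans hR
  have hRr : (1 : ℝ) ≤ R := by exact_mod_cast hR0
  have hRδ : (bb F * F.co.L + 2) / k1 + 1 ≤ δ * R := by
    have h1 := (le_max_right _ _).trans hR
    rw [div_le_iff₀ hδ] at h1
    linarith
  obtain ⟨M, hM⟩ : ∃ M : ℝ, M = 2 * R + 1 := ⟨_, rfl⟩
  have hM1 : 1 ≤ M := by linarith
  -- the constants
  obtain ⟨ε₁, hε₁⟩ : ∃ ε₁ : ℝ, ε₁ = 9 * ε / 128 := ⟨_, rfl⟩
  obtain ⟨Cm, hCm, n1, hprice⟩ := hmc.price (p := ε₁) (by rw [hε₁]; positivity)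
  obtain ⟨Cn, hCn, n2, hmean⟩ := hmc (1 / 2) (by norm_num)
  obtain ⟨g, hg⟩ : ∃ g : ℝ, g = 128 * M / (9 * ε) := ⟨_, rfl⟩
  have hg0 : 0 < g := by rw [hg]; positivity
  obtain ⟨q, hq⟩ : ∃ q : ℝ, q = k1 / Cr F := ⟨_, rfl⟩
  have hq0 : 0 < q := by rw [hq]; positivity
  obtain ⟨q', hq'⟩ : ∃ q' : ℝ, q' = |CL F k1 K1| / Cr F := ⟨_, rfl⟩
  have hq'0 : 0 ≤ q' := by rw [hq']; positivity
  obtain ⟨Yc, hYc⟩ : ∃ Yc : ℝ, Yc = 2 * (c + M) / ε := ⟨_, rfl⟩
  have hYc0 : 0 < Yc := by rw [hYc]; positivity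
  obtain ⟨c2, hc2⟩ : ∃ c2 : ℝ, c2 = Yc + (8 * (c + M) + 2 * q + g) + 2 * q' + (8 * (c + M) + 2 * q) := ⟨_, rfl⟩
  have hc20 : 0 < c2 := by rw [hc2]; positivity
  obtain ⟨C, hC⟩ : ∃ C : ℝ, C = 1 + Yc + Cm * (c2 + M) + Cn * (Yc + 1) := ⟨_, rfl⟩
  refine ⟨R, max N1 (max n1 (max n2 1)), C, 1 / c2, min δ 1, hR0, ?_, ?_, by positivity, lt_min hδ one_pos,
    fun d hd n hn s D B τ hs hD hτ hEB hBn hcheap hpr y hy => ?_⟩
  · exact (le_max_right _ _).trans ((le_max_right _ _).trans (le_max_right _ _))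
  · rw [hC]
    have h1 : 0 ≤ Cm * (c2 + M) := by positivity
    have h2 : 0 ≤ Cn * (Yc + 1) := by positivity
    linarith
  have hnN1 : N1 ≤ n := (le_max_left _ _).trans hn
  have hnn1 : n1 ≤ n := (le_max_left _ _).trans ((le_max_right _ _).trans hn)
  have hnn2 : n2 ≤ n := (le_max_left _ _).trans ((le_max_right _ _).trans ((le_max_right _ _).trans hn))
  have hn1 : 1 ≤ n := hN1.trans hnN1
  have hnr : (1 : ℝ) ≤ n := by exact_mod_cast hn1
  have hadm := h.adm d hd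
  have hE0 := EE_pos F d n
  have hB0 : 0 < B := hE0.trans_le hEB
  have hCrB : Cr F ≤ B := (Cr_le_EE F d n).trans hEB
  have hkB : k1 ≤ q * B := by
    rw [hq, div_mul_eq_mul_div, le_div_iff₀ hCr]
    exact mul_le_mul_of_nonneg_left hCrB hk0.le
  have hCLB : CL F k1 K1 ≤ q' * B := by
    rw [hq', div_mul_eq_mul_div, le_div_iff₀ hCr]
    exact (mul_le_mul_of_nonneg_right (le_abs_self _) hCr.le).trans (mul_le_mul_of_nonneg_left hCrB (abs_nonneg _))
  have hCLB' : -(q' * B) ≤ CL F k1 K1 := by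
    have h1 : -|CL F k1 K1| ≤ CL F k1 K1 := neg_abs_le _
    have h2 : |CL F k1 K1| ≤ q' * B := by
      rw [hq', div_mul_eq_mul_div, le_div_iff₀ hCr]
      exact mul_le_mul_of_nonneg_left hCrB (abs_nonneg _)
    linarith
  have hs1 : |s| ≤ 1 := hs.trans (min_le_right _ _)
  have hsδ : |s| ≤ δ := hs.trans (min_le_left _ _)
  have hlat : Lat F κ k1 K1 (wv d (d.v + s)) := by
    refine ⟨hk0, ?_, ?_⟩
    · have h1 := abs_add_le d.v s
      have h2 := h.slope d hd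
      show (F.co.R : ℝ) + |d.v + s| ≤ K1
      linarith
    · rw [hk1]
      exact le_of_eq (div_mul_cancel₀ κ hK10.ne')
  -- the unit at the durations up to `(2 R + 1) n`
  have hU : ∀ m : ℕ, m ≤ (2 * R + 1) * n → ∃ z : ℤ, epT F d m z ≤ M * B := by
    intro m hm
    obtain ⟨z, hz⟩ := es_attained hadm m
    refine ⟨z, ?_⟩
    have h1 := le_EE F d hm
    have h2 := EE_mul F d n (k := 2 * R + 1) (by omega)
    have h3 : ((2 * R + 1 : ℕ) : ℝ) * EE F d n ≤ M * B := by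
      have e1 : ((2 * R + 1 : ℕ) : ℝ) = M := by rw [hM]; push_cast; ring
      rw [e1]
      exact mul_le_mul_of_nonneg_left hEB (by linarith)
    show ep F d m z ≤ M * B
    rw [hz]
    linarith
  obtain ⟨Λ, hΛ⟩ : ∃ Λ : ℝ, Λ = (bb F * F.co.L + 2) * n / k1 := ⟨_, rfl⟩
  have hΛk : k1 * Λ = (bb F * F.co.L + 2) * n := by
    rw [hΛ]
    field_simp
  have hΛ0 : 0 ≤ Λ := by rw [hΛ]; positivity
  have hcheap0 : Cheap0 F (wv d (d.v + s)) k1 (R * n) n Λ (4 * (c + M) * B) := by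
    intro m hm1 hm2 z hz
    have hmn : n ≤ m := (Nat.le_mul_of_pos_left n hR0).trans hm1
    have hm3 : m ≤ (2 * R + 1) * n := by
      have e9 : (2 * R + 1) * n = 2 * (R * n) + n := by ring
      have := Nat.zero_le (R * n)
      omega
    have hm0 : 1 ≤ m := hn1.trans hmn
    obtain ⟨z0, hz0⟩ := hU m hm3
    have hz' : |(z : ℝ) - (d.v + s) * m| ≤ Λ + 1 := hz
    have hmR : (R : ℝ) * n ≤ m := by exact_mod_cast hm1
    have h1 : Λ + 1 ≤ δ * m := by
      have h2 : Λ + 1 ≤ ((bb F * F.co.L + 2) / k1 + 1) * n := by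
        have e1 : Λ = (bb F * F.co.L + 2) / k1 * n := by rw [hΛ]; ring
        rw [e1]
        linarith
      have h3 : ((bb F * F.co.L + 2) / k1 + 1) * n ≤ δ * R * n := mul_le_mul_of_nonneg_right hRδ (by linarith)
      have h4 : δ * (R * n) ≤ δ * m := mul_le_mul_of_nonneg_left hmR hδ.le
      linarith
    have h2 := hline d hd m (hnN1.trans hmn) s (c * B) hsδ (by positivity) (hcheap m hmn hm3) z (hz'.trans h1)
    have h3 := epT_le hadm hm0 (hVN d hd m hm0) z z0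
    rw [epT_wv]
    show 4 * epT F d m z ≤ 4 * (c + M) * B + k1 * |(z : ℝ) - (d.v + s) * m|
    have h4 : 0 ≤ k1 * |(z : ℝ) - (d.v + s) * m| := mul_nonneg hk0.le (abs_nonneg _)
    linarith
  -- the tube
  have e2 : n + 2 * (R * n) = (2 * R + 1) * n := by ring
  have e3 : ((n + 2 * (R * n) : ℕ) : ℝ) = (((2 * R + 1) * n : ℕ) : ℝ) := by rw [e2]
  have hkey := tube_prob (wv_adm hadm (d.v + s)) hlat hn1 (N := R * n) (Nat.one_le_iff_ne_zero.2 (by positivity))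
    (y := y) (D := D) (Y := Yc * B) (G := (8 * (c + M) + 2 * q + g) * B) (a := 4 * (c + M) * B) (A := M * B) (Λ := Λ)
    (ε := ε₁) (τ := τ) hy hD hτ (by positivity) hcheap0 hΛ0 ?_ ?_ ?_ ?_ ?_ ?_ (by positivity)
  · -- the conclusion
    have hprob : 1 - ε ≤ (law F).real {η | HasT F (wv d (d.v + s)) D n y ∧ XT F (wv d (d.v + s)) D η 0 n y ≤ Yc * B ∧
        XT F (wv d (d.v + s)) D η 0 n y ≤ X F (wv d (d.v + s)) η 0 n y} := by
      refine le_trans ?_ hkey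
      have h1 : epT F (wv d (d.v + s)) n y / (Yc * B) ≤ ε / 2 := by
        obtain ⟨z0, hz0⟩ := hU n (Nat.le_mul_of_pos_left n (by omega))
        have h2 := epT_le hadm hn1 (hVN d hd n hn1) y z0
        have h3 := hcheap n le_rfl (Nat.le_mul_of_pos_left n (by omega)) y hy
        rw [epT_wv, div_le_iff₀ (by positivity), hYc]
        have e4 : ε / 2 * (2 * (c + M) / ε * B) = (c + M) * B := by field_simp
        rw [e4]
        linarith
      have h2 : 32 / 9 * (ε₁ + M * B / ((8 * (c + M) + 2 * q + g) * B - 2 * (4 * (c + M) * B + k1))) ≤ ε / 2 := by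
        have h3 : g * B ≤ (8 * (c + M) + 2 * q + g) * B - 2 * (4 * (c + M) * B + k1) := by linarith
        have h4 : M * B / ((8 * (c + M) + 2 * q + g) * B - 2 * (4 * (c + M) * B + k1)) ≤ M * B / (g * B) :=
          div_le_div_of_nonneg_left (by positivity) (by positivity) h3
        have h5 : M * B / (g * B) = 9 * ε / 128 := by
          rw [hg]
          field_simp
        rw [h5] at h4
        rw [hε₁]
        linarith
      linarith
    have hYC : Yc * B ≤ C * B := by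
      refine mul_le_mul_of_nonneg_right ?_ hB0.le
      rw [hC]
      have h1 : 0 ≤ Cm * (c2 + M) := by positivity
      have h2 : 0 ≤ Cn * (Yc + 1) := by positivity
      linarith
    have hT : HasT F (wv d (d.v + s)) D n y := by
      by_contra hcon
      have h1 : {η | HasT F (wv d (d.v + s)) D n y ∧ XT F (wv d (d.v + s)) D η 0 n y ≤ Yc * B ∧
          XT F (wv d (d.v + s)) D η 0 n y ≤ X F (wv d (d.v + s)) η 0 n y} = ∅ := by
        ext η
        simp only [Set.mem_ofPred_eq, Set.mem_empty_iff_false, iff_false]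
        exact fun h2 => hcon h2.1
      rw [h1, measureReal_empty] at hprob
      linarith
    have hp2 : 1 / 2 ≤ (law F).real {η | XT F (wv d (d.v + s)) D η 0 n y ≤ Yc * B} := by
      refine le_trans (by linarith) (hprob.trans (measureReal_mono (fun η hη => ?_) (measure_ne_top _ _)))
      exact hη.2.1
    refine ⟨?_, hT, ?_, hprob.trans (measureReal_mono (fun η hη => hη.2.2) (measure_ne_top _ _))⟩
    · refine hprob.trans (measureReal_mono (fun η hη => ?_) (measure_ne_top _ _))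
      exact hη.2.1.trans hYC
    · have e4 : (0 : Pt).1 + (n : ℤ) = n := by simp
      have hne := hT
      unfold HasT at hne
      rw [zero_add] at hne
      have h1 := hmean d hd n hnn2 (F.co.slab 0 n ∩ TbE F (wv d (d.v + s)) 0 D) y Set.inter_subset_left hne (Yc * B) (by
        simp_rw [XS_tube]
        exact hp2)
      simp_rw [XS_tube] at h1
      refine h1.trans ?_
      rw [max_eq_left (by positivity)]
      calc Cn * (Yc * B + EE F d n) ≤ Cn * (Yc * B + B) := by gcongr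
        _ = Cn * (Yc + 1) * B := by ring
        _ ≤ C * B := by
          refine mul_le_mul_of_nonneg_right ?_ hB0.le
          rw [hC]
          have h2 : 0 ≤ Cm * (c2 + M) := by positivity
          linarith
  · -- the size of `Λ`
    rw [hΛk]
    have h1 : c2 * B ≤ n := by
      calc c2 * B ≤ c2 * (1 / c2 * n) := mul_le_mul_of_nonneg_left hBn hc20.le
        _ = n := by field_simp
    have h2 : Yc * B + (8 * (c + M) + 2 * q + g) * B + 2 * CL F k1 K1 ≤ c2 * B := by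
      rw [hc2]
      have h3 : 0 ≤ (8 * (c + M) + 2 * q) * B := by positivity
      linarith
    linarith
  · rw [hΛk]
    have h1 : 0 ≤ (8 * (c + M) + 2 * q + g) * B := by positivity
    linarith
  · -- the price
    intro z hz
    rw [e2]
    refine hprice d hd _ (hnn1.trans (Nat.le_mul_of_pos_left n (by omega))) z _ ?_
    refine lt_of_le_of_lt ?_ (hpr z (by
      rw [← e3]
      exact hz))
    have h1 : Yc * B + (8 * (c + M) + 2 * q + g) * B + 2 * CL F k1 K1 + 2 * (4 * (c + M) * B + k1) ≤ c2 * B := by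
      rw [hc2]
      linarith
    have h2 : EE F d ((2 * R + 1) * n) ≤ M * B := by
      have h2 := EE_mul F d n (k := 2 * R + 1) (by omega)
      have e1 : ((2 * R + 1 : ℕ) : ℝ) = M := by rw [hM]; push_cast; ring
      rw [e1] at h2
      exact h2.trans (mul_le_mul_of_nonneg_left hEB (by linarith))
    have h3 : max (Yc * B + (8 * (c + M) + 2 * q + g) * B + 2 * CL F k1 K1 + 2 * (4 * (c + M) * B + k1)) 0 ≤ c2 * B :=
      max_le h1 (by positivity)
    calc Cm * (max (Yc * B + (8 * (c + M) + 2 * q + g) * B + 2 * CL F k1 K1 + 2 * (4 * (c + M) * B + k1)) 0 +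
          EE F d ((2 * R + 1) * n)) ≤ Cm * (c2 * B + M * B) := by gcongr
      _ = Cm * (c2 + M) * B := by ring
      _ ≤ C * B := by
        refine mul_le_mul_of_nonneg_right ?_ hB0.le
        rw [hC]
        have h4 : 0 ≤ Cn * (Yc + 1) := by positivity
        linarith
  · rw [VV_wv, e2]
    exact hVN d hd _ (Nat.one_le_iff_ne_zero.2 (by positivity))
  · rw [epT_wv, e2]
    exact hU _ le_rfl
  · have := mul_pos hg0 hB0
    linarith

/-- **THE TUBE AROUND A STRAIGHT LINE** (the form without the comparison with the cost). -/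
theorem tube_line0 (h : Dirs F κ K A) (hmc : MCR F A) (hVN : VN F A) {ε c : ℝ} (hε : 0 < ε) (hε1 : ε ≤ 1 / 2)
    (hc : 1 ≤ c) :
    ∃ (R n0 : ℕ) (C b0 s0 : ℝ), 1 ≤ R ∧ 1 ≤ n0 ∧ 1 ≤ C ∧ 0 < b0 ∧ 0 < s0 ∧ ∀ d ∈ A, ∀ n : ℕ, n0 ≤ n → ∀ s D B τ : ℝ,
      |s| ≤ s0 → 0 < D → (τ = 1 ∨ τ = -1) → EE F d n ≤ B → B ≤ b0 * n →
      (∀ m : ℕ, n ≤ m → m ≤ (2 * R + 1) * n → ∀ y : ℤ, |(y : ℝ) - (d.v + s) * m| ≤ 1 → e F d m y ≤ c * B) →
      (∀ y : ℤ, |(y : ℝ) - ((d.v + s) * ((2 * R + 1) * n : ℕ) + τ * D)| ≤ 3 → C * B < e F d ((2 * R + 1) * n) y) →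
      ∀ y : ℤ, |(y : ℝ) - (d.v + s) * n| ≤ 1 →
        1 - ε ≤ (law F).real {η | XT F (wv d (d.v + s)) D η 0 n y ≤ C * B} ∧ HasT F (wv d (d.v + s)) D n y ∧
        ∫ η, XT F (wv d (d.v + s)) D η 0 n y ∂(law F) ≤ C * B := by
  obtain ⟨R, n0, C, b0, s0, h1, h2, h3, h4, h5, h6⟩ := tube_line1 h hmc hVN hε hε1 hc
  refine ⟨R, n0, C, b0, s0, h1, h2, h3, h4, h5, fun d hd n hn s D B τ q1 q2 q3 q4 q5 q6 q7 y q8 => ?_⟩
  obtain ⟨r1, r2, r3, -⟩ := h6 d hd n hn s D B τ q1 q2 q3 q4 q5 q6 q7 y q8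
  exact ⟨r1, r2, r3⟩

end Pool.Agent.W_1b8d5d_h57p
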