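import Pool.Agent.W_1b8d5d_h4p.NSz

/-!
MP_1b8d5d_pr, Track P, inner edge (row 646, section 3), the probabilities: at an octave which is not soft all lucks, references,
walls and pieces are concentrated. (helper57)
-/

namespace Pool.Agent.W_1b8d5d_h57p

open MeasureTheory Set
open Pool.Agent.W_1b8d5d_h85 (V nm dir Env Edge grid wedges cost Bd sh)
open Pool.Agent.W_1b8d5d_p
open Pool.Agent.W_1b8d5d_h4p (LawH Lk lk_X lk_VT Sf Sf.mono conc_of_not_Sf int_negX exists_level neg_level VV_mean_ge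
  mc_X)

variable {F : Fm} {c0 C0 κ : ℝ} {d : Dr}

/-- **THE PROBABILITIES AT AN OCTAVE WHICH IS NOT SOFT.** `E` is the unit of the octave, `m ≤ 2 ^ x`. (1) the luck is at most
`q E`; (2) a piece costs at least `min (mean) (B E) - q E`; (3) a reference costs at most its mean plus `q E`; (4) a wall of mean
cost at least `(b + 1) E`, `b ≤ B`, costs more than `b E`. Each with an exceptional probability at most `p`. -/
theorem probX (hL : LawH F c0 C0) {p q : ℝ} (hp : 0 < p) (hq : 0 < q) (A B : ℝ) : ∃ α₀ : ℝ, 0 ≤ α₀ ∧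
    ∀ (κ : ℝ) (d : Dr), Adm F κ d → Touch F d → ∀ (x : ℕ) (α : ℝ), α₀ ≤ α → ¬ Sf F κ d x α → ∀ m : ℕ, 1 ≤ m → m ≤ 2 ^ x →
    (law F).real {η | q * EE F d (2 ^ x) < VV F d η 0 m} ≤ p ∧
    (∀ y : ℤ, (law F).real {η | X F d η 0 m y < min (e F d m y) (B * EE F d (2 ^ x)) - q * EE F d (2 ^ x)} ≤ p) ∧
    (∀ y : ℤ, e F d m y ≤ A * EE F d (2 ^ x) →
      (law F).real {η | e F d m y + q * EE F d (2 ^ x) < X F d η 0 m y} ≤ p) ∧
    (∀ (y : ℤ) (b : ℝ), b ≤ B → (b + 1) * EE F d (2 ^ x) ≤ e F d m y →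
      (law F).real {η | X F d η 0 m y ≤ b * EE F d (2 ^ x)} ≤ p) := by
  obtain ⟨T, C, hT, hC, hmc⟩ := mc_X hL hp
  have hT' : (1 : ℝ) ≤ T := by exact_mod_cast hT
  obtain ⟨α₀, hα₀, hB0⟩ := exists_level (max (max (1 / p) (1 / q)) (max (max A (2 * |B| + 1)) (C * T + 1)))
  refine ⟨α₀, hα₀, fun κ d hd ht x α hα hS m hm hmx => ?_⟩
  have hαα : (2 : ℝ) ^ α₀ ≤ 2 ^ α := Real.rpow_le_rpow_of_exponent_le one_le_two hα
  have hBb := hB0.trans hαα
  have hBp : 1 / p ≤ (2 : ℝ) ^ α := ((le_max_left _ _).trans (le_max_left _ _)).trans hBb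
  have hBq : 1 / q ≤ (2 : ℝ) ^ α := ((le_max_right _ _).trans (le_max_left _ _)).trans hBb
  have hBA : A ≤ (2 : ℝ) ^ α := (((le_max_left _ _).trans (le_max_left _ _)).trans (le_max_right _ _)).trans hBb
  have hBB : 2 * |B| + 1 ≤ (2 : ℝ) ^ α := (((le_max_right _ _).trans (le_max_left _ _)).trans (le_max_right _ _)).trans hBb
  have hBC : C * T + 1 ≤ (2 : ℝ) ^ α := ((le_max_right _ _).trans (le_max_right _ _)).trans hBb
  have hp2 : (2 : ℝ) ^ (-α) ≤ p := neg_level hp hBp
  have hq2 : (2 : ℝ) ^ (-α) ≤ q := neg_level hq hBq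
  have h21 : (1 : ℝ) ≤ 2 ^ α := Real.one_le_rpow one_le_two (hα₀.trans hα)
  have hE := EE_pos F d (2 ^ x)
  obtain ⟨E, hEd⟩ : ∃ E, E = EE F d (2 ^ x) := ⟨_, rfl⟩
  rw [← hEd] at hE
  have hqE : (2 : ℝ) ^ (-α) * E ≤ q * E := mul_le_mul_of_nonneg_right hq2 hE.le
  have h1E : E ≤ 2 ^ α * E := le_mul_of_one_le_left hE.le h21
  have hm1 : (m : ℝ) ≤ (2 : ℝ) ^ ((x : ℝ) + α) := by
    rw [Real.rpow_add two_pos, Real.rpow_natCast]
    have k1 : (m : ℝ) ≤ 2 ^ x := by exact_mod_cast hmx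
    have k3 : (0 : ℝ) < 2 ^ x := by positivity
    nlinarith
  -- concentration of the cost
  have hconc : ∀ y : ℤ, e F d m y ≤ 2 ^ α * E → (law F).real {η | 2 ^ (-α) * E ≤ |-X F d η 0 m y - -e F d m y|} ≤ p := by
    intro y he
    have h1 := conc_of_not_Sf hS hm1 (lk_X hd hm y) (by
      rw [int_negX, ← hEd]
      linarith)
    rw [int_negX, ← hEd] at h1
    exact h1.le.trans hp2
  -- the price of an expensive displacement
  have hprice : ∀ (y : ℤ) (u : ℝ), u ≤ |B| * E → 2 ^ α * E < e F d m y → (law F).real {η | X F d η 0 m y ≤ u} ≤ p := by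
    intro y u hu he
    by_contra hcon
    rw [not_le] at hcon
    have h1 := hmc κ d hd ht m (T * m) hm le_rfl y u hcon.le
    have h2 : EE F d (T * m) ≤ T * E := by
      have k1 := EE_mul F d m hT
      have k2 : EE F d m ≤ E := hEd ▸ EE_mono F d hmx
      have k3 : (T : ℝ) * EE F d m ≤ T * E := mul_le_mul_of_nonneg_left k2 (by linarith)
      linarith
    have h3 : C * EE F d (T * m) ≤ 2 ^ α * E := by
      have k1 := mul_le_mul_of_nonneg_left h2 (by linarith : 0 ≤ C)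
      have k2 := mul_le_mul_of_nonneg_right hBC hE.le
      nlinarith
    have h4 : 2 * u ≤ 2 ^ α * E := by
      have k2 := mul_le_mul_of_nonneg_right hBB hE.le
      linarith
    linarith [h1.trans (max_le h4 h3)]
  refine ⟨?_, fun y => ?_, fun y he => ?_, fun y b hb he => ?_⟩
  · have h1 := conc_of_not_Sf hS hm1 (lk_VT hd hm) (by
      have := VV_mean_ge hd hm hmx
      show _ ≤ ∫ η, VV F d η 0 m ∂(law F)
      rw [← hEd] at this ⊢
      linarith)
    refine (measureReal_mono (fun η hη => ?_) (measure_ne_top _ _)).trans (h1.le.trans hp2)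
    rw [Set.mem_ofPred_eq] at hη ⊢
    have k1 : ∫ ξ, VV F d ξ 0 m ∂(law F) ≤ 0 := VV_mean_le hd ht hm
    rw [← hEd] at hη ⊢
    refine le_trans ?_ (le_abs_self _)
    show 2 ^ (-α) * E ≤ VV F d η 0 m - ∫ ξ, VV F d ξ 0 m ∂(law F)
    linarith
  · rw [← hEd]
    rcases le_or_gt (e F d m y) (2 ^ α * E) with he | he
    · refine (measureReal_mono (fun η hη => ?_) (measure_ne_top _ _)).trans (hconc y he)
      rw [Set.mem_ofPred_eq] at hη ⊢
      refine le_trans ?_ (le_abs_self _)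
      have := min_le_left (e F d m y) (B * E)
      linarith
    · refine (measureReal_mono (fun η hη => ?_) (measure_ne_top _ _)).trans (hprice y (|B| * E) le_rfl he)
      rw [Set.mem_ofPred_eq] at hη ⊢
      have h1 := min_le_right (e F d m y) (B * E)
      have h2 : B * E ≤ |B| * E := mul_le_mul_of_nonneg_right (le_abs_self B) hE.le
      have h3 : 0 < q * E := mul_pos hq hE
      linarith
  · rw [← hEd] at he ⊢
    have he' : e F d m y ≤ 2 ^ α * E := he.trans (mul_le_mul_of_nonneg_right hBA hE.le)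
    refine (measureReal_mono (fun η hη => ?_) (measure_ne_top _ _)).trans (hconc y he')
    rw [Set.mem_ofPred_eq] at hη ⊢
    rw [abs_sub_comm]
    refine le_trans ?_ (le_abs_self _)
    linarith
  · rw [← hEd] at he ⊢
    have hb2 : b * E ≤ |B| * E := mul_le_mul_of_nonneg_right (hb.trans (le_abs_self B)) hE.le
    rcases le_or_gt (e F d m y) (2 ^ α * E) with he' | he'
    · refine (measureReal_mono (fun η hη => ?_) (measure_ne_top _ _)).trans (hconc y he')
      rw [Set.mem_ofPred_eq] at hη ⊢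
      refine le_trans ?_ (le_abs_self _)
      have k1 : (2 : ℝ) ^ (-α) ≤ 1 := by
        rw [Real.rpow_neg two_pos.le]
        exact inv_le_one_of_one_le₀ h21
      have k2 : (2 : ℝ) ^ (-α) * E ≤ 1 * E := mul_le_mul_of_nonneg_right k1 hE.le
      linarith
    · exact hprice y _ hb2 he'

end Pool.Agent.W_1b8d5d_h57p
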