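import Pool.Agent.W_1b8d5d_h57p.TubeEv

/-!
MP_1b8d5d_pr, Track P: narrow tubes at `T = 0`, the probability of a cheap walk which leaves the tube. Means of the positive
parts along the slope of the tube, one expensive displacement. (helper57)
-/

namespace Pool.Agent.W_1b8d5d_h57p

open MeasureTheory Set
open Pool.Agent.W_1b8d5d_h85 Pool.Agent.W_1b8d5d_p

variable {F : Fm} {κ k1 K1 : ℝ} {d : Dr} {η : Env}

/-- The mean of the positive part of the cost (`ep` of Unit1). -/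
noncomputable def epT (F : Fm) (d : Dr) (n : ℕ) (y : ℤ) : ℝ := ∫ η, max (X F d η 0 n y) 0 ∂(law F)

theorem epT_nonneg (F : Fm) (d : Dr) (n : ℕ) (y : ℤ) : 0 ≤ epT F d n y := integral_nonneg fun _ => le_max_right _ _

theorem epT_at (F : Fm) (d : Dr) (a : Pt) (n : ℕ) (y : ℤ) : ∫ η, max (X F d η a n y) 0 ∂(law F) = epT F d n y := by
  have h := shp_int (F := F) (g := fun η => max (X F d η 0 n y) 0) ((X_meas F d 0 n y).max measurable_const) a
  simp_rw [X_shp F d a _ 0 n y, zero_add] at h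
  exact h

theorem prob_at (F : Fm) (d : Dr) (a : Pt) (n : ℕ) (y : ℤ) (r : ℝ) :
    (law F).real {η | X F d η a n y ≤ r} = (law F).real {η | X F d η 0 n y ≤ r} := by
  have h := (mp_shp F a).measureReal_preimage (s := {η | X F d η 0 n y ≤ r})
    (measurableSet_le (X_meas F d 0 n y) measurable_const).nullMeasurableSet
  rw [← h]
  congr 1
  ext η
  simp only [Set.mem_preimage, Set.mem_ofPred_eq]
  rw [X_shp, zero_add]

/-- A displacement of small mean is cheap with probability at least `3 / 4`. -/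
theorem traveller (hd : Adm F κ d) {P Q : Pt} (h : P.1 < Q.1) {t : ℝ} (ht0 : 0 < t)
    (ht : 4 * epT F d (Q.1 - P.1).toNat (Q.2 - P.2) ≤ t) : 3 / 4 ≤ (law F).real {η | XP F d η P Q ≤ t} := by
  have hn : 1 ≤ (Q.1 - P.1).toNat := by omega
  have hm := X_meas F d P (Q.1 - P.1).toNat (Q.2 - P.2)
  have hi := X_integrable hd P hn (Q.2 - P.2)
  have h1 := mul_meas_ge_le_integral_of_nonneg (μ := law F) (f := fun η => max (X F d η P (Q.1 - P.1).toNat (Q.2 - P.2)) 0)
    (Filter.Eventually.of_forall fun η => le_max_right _ _) hi.pos_part t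
  rw [epT_at] at h1
  have h2 : (law F).real {η | XP F d η P Q ≤ t}ᶜ ≤
      (law F).real {η | t ≤ max (X F d η P (Q.1 - P.1).toNat (Q.2 - P.2)) 0} := by
    refine measureReal_mono (fun η hη => ?_) (measure_ne_top _ _)
    simp only [Set.mem_compl_iff, Set.mem_ofPred_eq, not_le] at hη ⊢
    exact hη.le.trans (le_max_left _ _)
  have hms : MeasurableSet {η | XP F d η P Q ≤ t} := measurableSet_le hm measurable_const
  rw [probReal_compl_eq_one_sub hms] at h2
  have h3 : t * (law F).real {η | t ≤ max (X F d η P (Q.1 - P.1).toNat (Q.2 - P.2)) 0} ≤ t * (1 / 4) := by linarith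
  have h4 := le_of_mul_le_mul_left h3 ht0
  linarith

/-- Markov's inequality for the luck. -/
theorem VV_markov (hd : Adm F κ d) {n : ℕ} (hn : 1 ≤ n) (hV : ∫ η, VV F d η 0 n ∂(law F) ≤ 0) (a : Pt) (y : ℤ) {t : ℝ}
    (ht : 0 < t) : (law F).real {η | t ≤ VV F d η a n} ≤ epT F d n y / t := by
  have hi := VV_integrable hd a hn
  have h1 := mul_meas_ge_le_integral_of_nonneg (μ := law F) (f := fun η => max (VV F d η a n) 0)
    (Filter.Eventually.of_forall fun η => le_max_right _ _) hi.pos_part t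
  have h2 : ∫ η, max (VV F d η a n) 0 ∂(law F) ≤ epT F d n y := by
    have h3 : ∫ η, max (VV F d η a n) 0 ∂(law F) ≤ ∫ η, (VV F d η a n + max (X F d η a n y) 0) ∂(law F) := by
      refine integral_mono hi.pos_part (hi.add (X_integrable hd a hn y).pos_part) fun η => ?_
      have h4 := neg_X_le_VV hd η a hn y
      simp only
      refine max_le ?_ ?_
      · linarith [le_max_right (X F d η a n y) 0]
      · linarith [le_max_left (X F d η a n y) 0]
    rw [integral_add hi (X_integrable hd a hn y).pos_part, epT_at, VV_int] at h3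
    linarith
  have h5 : (law F).real {η | t ≤ VV F d η a n} ≤ (law F).real {η | t ≤ max (VV F d η a n) 0} :=
    measureReal_mono (fun η hη => le_trans (show t ≤ VV F d η a n from hη) (le_max_left _ _)) (measure_ne_top _ _)
  rw [le_div_iff₀ ht]
  calc (law F).real {η | t ≤ VV F d η a n} * t ≤ (law F).real {η | t ≤ max (VV F d η a n) 0} * t :=
        mul_le_mul_of_nonneg_right h5 ht.le
    _ = t * (law F).real {η | t ≤ max (VV F d η a n) 0} := mul_comm _ _
    _ ≤ epT F d n y := h1.trans h2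

/-- A point of the block time `i` next to the line `c`. -/
noncomputable def pl (d : Dr) (i : ℤ) (c : ℝ) : Pt := (i, ⌊d.v * i + c⌋)

theorem lat_pl (d : Dr) (i : ℤ) (c : ℝ) : |lat d (pl d i c) - c| ≤ 1 := by
  unfold lat pl
  have h1 := Int.floor_le (d.v * i + c)
  have h2 := Int.lt_floor_add_one (d.v * i + c)
  simp only
  rw [abs_le]
  constructor <;> linarith

/-- The displacements along the slope of duration in `[N, N + n]` are cheap in the mean, with a small lateral price. -/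
def Cheap0 (F : Fm) (d : Dr) (k1 : ℝ) (N n : ℕ) (Λ a : ℝ) : Prop :=
  ∀ m : ℕ, N ≤ m → m ≤ N + n → ∀ y : ℤ, |(y : ℝ) - d.v * m| ≤ Λ + 1 → 4 * epT F d m y ≤ a + k1 * |(y : ℝ) - d.v * m|

theorem Cheap0.pair (hd : Adm F κ d) (hk0 : 0 < k1) {N n : ℕ} {Λ a : ℝ} (ha : 0 < a) (h : Cheap0 F d k1 N n Λ a) {P Q : Pt}
    (h1 : N ≤ (Q.1 - P.1).toNat) (h2 : (Q.1 - P.1).toNat ≤ N + n) (hn : 1 ≤ N) {x : ℝ} (hx0 : 0 ≤ x)
    (hx : |lat d Q - lat d P| ≤ x + 1) (hxΛ : x ≤ Λ) :
    3 / 4 ≤ (law F).real {η | XP F d η P Q ≤ (a + k1) + k1 * x} := by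
  have e0 : (((Q.1 - P.1).toNat : ℕ) : ℤ) = Q.1 - P.1 := Int.toNat_of_nonneg (by omega)
  have e1 : (((Q.2 - P.2 : ℤ) : ℝ) - d.v * (((Q.1 - P.1).toNat : ℕ) : ℝ)) = lat d Q - lat d P := by
    have e2 : ((((Q.1 - P.1).toNat : ℕ) : ℤ) : ℝ) = ((Q.1 - P.1 : ℤ) : ℝ) := by rw [e0]
    rw [Int.cast_natCast] at e2
    rw [e2]
    unfold lat
    push_cast
    ring
  refine traveller hd (by omega) (by positivity) ?_
  have h3 := h (Q.1 - P.1).toNat h1 h2 (Q.2 - P.2) (by rw [e1]; linarith)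
  rw [e1] at h3
  have h4 := mul_le_mul_of_nonneg_left hx hk0.le
  linarith

/-- **THE TUBE AT `T = 0`.** `τ D` is the expensive side; the far points are at the time distance `N`. -/
theorem tube0 (hd : Adm F κ d) (hk : Lat F κ k1 K1 d) {n N : ℕ} (hn : 1 ≤ n) (hN : 1 ≤ N) {x y : V}
    {D Y G a A Λ ε τ : ℝ} (hx : |latV F d x| < D) (hτ : τ = 1 ∨ τ = -1) (ha : 0 < a) (hΛ0 : 0 ≤ Λ)
    (hcheap : Cheap0 F d k1 N n Λ a)
    (hΛ : Y + G + 2 * CL F k1 K1 + bb F * F.co.L * n ≤ k1 * Λ) (hΛ' : -G + bb F * F.co.L * n ≤ k1 * Λ)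
    (hp1 : ∀ z : ℤ, |(z : ℝ) - (d.v * (n + 2 * N : ℕ) + (τ * D - latV F d x))| ≤ 2 →
      (law F).real {η | X F d η 0 (n + 2 * N) z ≤ Y + G + 2 * CL F k1 K1 + 2 * (a + k1)} ≤ ε)
    (hp2 : ∀ z : ℤ, |(z : ℝ) - (d.v * (n + 2 * N : ℕ) + (τ * D + latV F d y))| ≤ 2 →
      (law F).real {η | X F d η 0 (n + 2 * N) z ≤ Y + G + 2 * CL F k1 K1 + 2 * (a + k1)} ≤ ε)
    (hV : ∫ η, VV F d η 0 (n + 2 * N) ∂(law F) ≤ 0) (hA : ∃ z : ℤ, epT F d (n + 2 * N) z ≤ A) (hG : 2 * (a + k1) < G) :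
    (law F).real {η | ∃ w : grid.Walk x y, (∀ z ∈ w.support, 0 ≤ F.co.tm z ∧ F.co.tm z ≤ F.co.L * n) ∧
      exc F d η w ≤ Y ∧ ∃ z ∈ w.support, D ≤ |latV F d z|} ≤ 32 / 9 * (ε + A / (G - 2 * (a + k1))) := by
  have hk0 := hk.k0
  have hnZ : (1 : ℤ) ≤ n := by exact_mod_cast hn
  have hNZ : (1 : ℤ) ≤ N := by exact_mod_cast hN
  -- passages
  have hpass : ∀ c c' : ℝ, (∀ z : ℤ, |(z : ℝ) - (d.v * (n + 2 * N : ℕ) + (c' - c))| ≤ 2 →
      (law F).real {η | X F d η 0 (n + 2 * N) z ≤ Y + G + 2 * CL F k1 K1 + 2 * (a + k1)} ≤ ε) →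
      9 / 16 * (law F).real (Pass F d k1 0 n c c' (Y + G + 2 * CL F k1 K1)) ≤ ε := by
    intro c c' hp
    have hO := lat_pl d (-(N : ℤ)) c
    have hZ := lat_pl d (n + N : ℤ) c'
    have h1 := pass_prob hd hk0 (n := n) (O := pl d (-(N : ℤ)) c) (Z := pl d (n + N : ℤ) c') (by show -(N : ℤ) < 0; omega)
      (by show (n : ℤ) < n + N; omega) (c := c) (c' := c') (a := a + k1) (Y := Y + G + 2 * CL F k1 K1) (Λ := Λ) hΛ ?_ ?_
    · refine h1.trans ?_
      have e1 : ((pl d (n + N : ℤ) c').1 - (pl d (-(N : ℤ)) c).1).toNat = n + 2 * N := by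
        show ((n + N : ℤ) - -(N : ℤ)).toNat = n + 2 * N
        omega
      unfold XP
      rw [e1, prob_at]
      refine hp _ ?_
      have e2 : (((pl d (n + N : ℤ) c').2 - (pl d (-(N : ℤ)) c).2 : ℤ) : ℝ) =
          lat d (pl d (n + N : ℤ) c') - lat d (pl d (-(N : ℤ)) c) + d.v * (n + 2 * N : ℕ) := by
        unfold lat
        have e3 : (((pl d (n + N : ℤ) c').1 : ℤ) : ℝ) = n + N := by
          show ((n + N : ℤ) : ℝ) = n + N
          push_cast
          ring
        have e4 : (((pl d (-(N : ℤ)) c).1 : ℤ) : ℝ) = -N := by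
          show ((-(N : ℤ) : ℤ) : ℝ) = -N
          push_cast
          ring
        rw [e3, e4]
        push_cast
        ring
      rw [e2]
      rw [abs_le] at hO hZ ⊢
      constructor <;> linarith [hO.1, hO.2, hZ.1, hZ.2]
    · intro P hP0 hP1 hP
      have e5 : (pl d (-(N : ℤ)) c).1 = -(N : ℤ) := rfl
      refine Cheap0.pair hd hk0 ha hcheap (by rw [e5]; omega) (by rw [e5]; omega) hN (abs_nonneg _) ?_ hP
      have := abs_sub_le (lat d P) c (lat d (pl d (-(N : ℤ)) c))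
      rw [abs_sub_comm c] at this
      linarith
    · intro Q hQ0 hQ1 hQ
      have e5 : (pl d (n + N : ℤ) c').1 = n + N := rfl
      refine Cheap0.pair hd hk0 ha hcheap (by rw [e5]; omega) (by rw [e5]; omega) hN (abs_nonneg _) ?_ hQ
      have := abs_sub_le (lat d (pl d (n + N : ℤ) c')) c' (lat d Q)
      rw [abs_sub_comm c' (lat d Q)] at this
      linarith
  -- lucks
  have hluck : ∀ c : ℝ, 9 / 16 * (law F).real (Luck F d k1 0 n c G) ≤ A / (G - 2 * (a + k1)) := by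
    intro c
    have hO := lat_pl d (-(N : ℤ)) c
    obtain ⟨z, hz⟩ := hA
    have h1 := luck_prob hd hk0 (n := n) (O := pl d (-(N : ℤ)) c) (by show -(N : ℤ) < 0; omega)
      (Z := fun Q => ((n + N : ℤ), Q.2 + ⌊d.v * ((n + N : ℤ) - Q.1 : ℤ)⌋)) (T := n + N) (by push_cast; omega)
      (fun Q => by push_cast; rfl) (c := c) (a := a + k1) (b := a + k1) (G := G) (Λ := Λ) hΛ' ?_ ?_
    · refine h1.trans ?_
      have e1 : (((n + N : ℕ) : ℤ) - (pl d (-(N : ℤ)) c).1).toNat = n + 2 * N := by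
        show (((n + N : ℕ) : ℤ) - -(N : ℤ)).toNat = n + 2 * N
        omega
      rw [e1]
      have e2 : G - (a + k1) - (a + k1) = G - 2 * (a + k1) := by ring
      rw [e2]
      refine (VV_markov hd (by omega) hV _ z (by linarith)).trans ?_
      exact div_le_div_of_nonneg_right hz (by linarith)
    · intro P hP0 hP1 hP
      have e5 : (pl d (-(N : ℤ)) c).1 = -(N : ℤ) := rfl
      refine Cheap0.pair hd hk0 ha hcheap (by rw [e5]; omega) (by rw [e5]; omega) hN (abs_nonneg _) ?_ hP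
      have := abs_sub_le (lat d P) c (lat d (pl d (-(N : ℤ)) c))
      rw [abs_sub_comm c] at this
      linarith
    · intro Q hQ0 hQ1
      have := Cheap0.pair hd hk0 ha hcheap (P := Q) (Q := ((n + N : ℤ), Q.2 + ⌊d.v * ((n + N : ℤ) - Q.1 : ℤ)⌋))
        (by simp only; omega) (by simp only; omega) hN (x := 0) le_rfl ?_ hΛ0
      · rwa [mul_zero, add_zero] at this
      · unfold lat
        have h1 := Int.floor_le (d.v * ((n + N : ℤ) - Q.1 : ℤ))
        have h2 := Int.lt_floor_add_one (d.v * ((n + N : ℤ) - Q.1 : ℤ))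
        push_cast at h1 h2 ⊢
        rw [abs_le]
        constructor <;> linarith
  -- conclusion
  have p1 := hpass (latV F d x) (τ * D) hp1
  have p2 := hpass (-(τ * D)) (latV F d y) (by
    intro z hz
    refine hp2 z ?_
    have e1 : d.v * (n + 2 * N : ℕ) + (τ * D + latV F d y) = d.v * (n + 2 * N : ℕ) + (latV F d y - -(τ * D)) := by ring
    rwa [e1])
  have p3 := hluck (τ * D)
  have p4 := hluck (latV F d x)
  have hsub : {η | ∃ w : grid.Walk x y, (∀ z ∈ w.support, 0 ≤ F.co.tm z ∧ F.co.tm z ≤ F.co.L * n) ∧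
      exc F d η w ≤ Y ∧ ∃ z ∈ w.support, D ≤ |latV F d z|} ⊆
      (Pass F d k1 0 n (latV F d x) (τ * D) (Y + G + 2 * CL F k1 K1) ∪
        Pass F d k1 0 n (-(τ * D)) (latV F d y) (Y + G + 2 * CL F k1 K1)) ∪
        (Luck F d k1 0 n (τ * D) G ∪ Luck F d k1 0 n (latV F d x) G) := by
    rintro η ⟨w, hw, hY, hz⟩
    rcases tube_det hd hk η w (s := 0) (t := n) (fun z hz => by rw [mul_zero]; exact hw z hz) hx hz hY hτ (G := G)
      with h | h | h | h
    · exact Or.inl (Or.inl h)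
    · exact Or.inl (Or.inr h)
    · exact Or.inr (Or.inl h)
    · exact Or.inr (Or.inr h)
  refine (measureReal_mono hsub (measure_ne_top _ _)).trans ?_
  have q1 := measureReal_union_le (μ := law F) (Pass F d k1 0 n (latV F d x) (τ * D) (Y + G + 2 * CL F k1 K1) ∪
        Pass F d k1 0 n (-(τ * D)) (latV F d y) (Y + G + 2 * CL F k1 K1))
        (Luck F d k1 0 n (τ * D) G ∪ Luck F d k1 0 n (latV F d x) G)
  have q2 := measureReal_union_le (μ := law F) (Pass F d k1 0 n (latV F d x) (τ * D) (Y + G + 2 * CL F k1 K1))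
        (Pass F d k1 0 n (-(τ * D)) (latV F d y) (Y + G + 2 * CL F k1 K1))
  have q3 := measureReal_union_le (μ := law F) (Luck F d k1 0 n (τ * D) G) (Luck F d k1 0 n (latV F d x) G)
  linarith

end Pool.Agent.W_1b8d5d_h57p
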