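import Pool.Agent.W_1b8d5d_p.FrGen
import Pool.Agent.W_1b8d5d_p.FrLine
import Pool.Agent.W_1b8d5d_p.FrSl

/-!
MP_1b8d5d_pr, Track P: narrow tubes at `T = 0`. The tube of half width `D` around the line of slope `d.v` through `0`. The cost
`X F d` does not depend on `d.v`, so the slope of the tube is the field `v` of the direction. (helper57)
-/

namespace Pool.Agent.W_1b8d5d_h57p

open MeasureTheory Set
open Pool.Agent.W_1b8d5d_h85 Pool.Agent.W_1b8d5d_p

variable {F : Fm} {κ k1 K1 : ℝ} {d : Dr} {η : Env}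

/-- The edges of the tube: both end points at a lateral distance less than `D`. -/
def TbS (F : Fm) (d : Dr) (D : ℝ) : Set Edge := {e | |latV F d e.1| < D ∧ |latV F d (e.1 + dir e.2)| < D}

/-- A walk from `x` to `y` which leaves the tube: cut it next to one of the two lines. -/
theorem tube_cut (hk : Lat F κ k1 K1 d) (η : Env) {x y : V} (w : grid.Walk x y) {D : ℝ} (hx : |latV F d x| < D)
    (hz : ∃ z ∈ w.support, D ≤ |latV F d z|) :
    ∃ (σ : ℝ) (v : V) (w1 : grid.Walk x v) (w2 : grid.Walk v y), (σ = 1 ∨ σ = -1) ∧ |latV F d v - σ * D| ≤ K1 ∧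
      exc F d η w = exc F d η w1 + exc F d η w2 ∧ (∀ z ∈ w1.support, z ∈ w.support) ∧ (∀ z ∈ w2.support, z ∈ w.support) := by
  obtain ⟨u, v, w1, h1, w2, e1, e2, e3⟩ :=
    Pool.Agent.W_1b8d5d_sc.split_first (fun z => D ≤ |latV F d z|) w (by simp only [not_le]; exact hx) hz
  simp only [not_le] at e2 e3
  have hsup1 : ∀ z ∈ (w1.append (SimpleGraph.Walk.cons h1 .nil)).support, z ∈ w.support := by
    intro z hz
    rw [SimpleGraph.Walk.mem_support_append_iff] at hz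
    rw [e1, SimpleGraph.Walk.mem_support_append_iff]
    rcases hz with hz | hz
    · exact Or.inl hz
    · refine Or.inr ?_
      rw [SimpleGraph.Walk.support_cons, SimpleGraph.Walk.support_nil, List.mem_cons, List.mem_singleton] at hz
      rw [SimpleGraph.Walk.support_cons, List.mem_cons]
      rcases hz with hz | hz
      · exact Or.inl hz
      · right
        rw [hz]
        exact w2.start_mem_support
  have hsup2 : ∀ z ∈ w2.support, z ∈ w.support := by
    intro z hz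
    rw [e1, SimpleGraph.Walk.mem_support_append_iff, SimpleGraph.Walk.support_cons]
    exact Or.inr (List.mem_cons_of_mem _ hz)
  have e4 : exc F d η w = exc F d η (w1.append (SimpleGraph.Walk.cons h1 .nil)) + exc F d η w2 := by
    rw [← exc_append]
    congr 1
    rw [e1, ← SimpleGraph.Walk.append_assoc]
    rfl
  have e5 := e2 u w1.end_mem_support
  have e6 := latV_adj hk h1
  rw [abs_lt] at e5
  rw [abs_le] at e6
  rcases le_total 0 (latV F d v) with h0 | h0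
  · refine ⟨1, v, _, w2, Or.inl rfl, ?_, e4, hsup1, hsup2⟩
    rw [abs_of_nonneg h0] at e3
    rw [one_mul, abs_of_nonneg (by linarith)]
    linarith [e6.2]
  · refine ⟨-1, v, _, w2, Or.inr rfl, ?_, e4, hsup1, hsup2⟩
    rw [abs_of_nonpos h0] at e3
    rw [abs_of_nonpos (by linarith)]
    linarith [e6.1]

/-- Passages in the block times `[s, t]` from the line `c` to the line `c'` of cost at most `Y`. -/
def Pass (F : Fm) (d : Dr) (k1 : ℝ) (s t : ℤ) (c c' Y : ℝ) : Set Env :=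
  {η | ∃ P Q, IsPr s t P Q ∧ XP F d η P Q + k1 * (|lat d P - c| + |lat d Q - c'|) ≤ Y}

/-- Lucky pairs in the block times `[s, t]` which start next to the line `c`. -/
def Luck (F : Fm) (d : Dr) (k1 : ℝ) (s t : ℤ) (c G : ℝ) : Set Env :=
  {η | ∃ P Q, IsPr s t P Q ∧ G ≤ -XP F d η P Q - k1 * |lat d P - c|}

theorem walk_pass (hd : Adm F κ d) (hk : Lat F κ k1 K1 d) (η : Env) {s t : ℤ} {u v : V} (w : grid.Walk u v)
    (hw : ∀ z ∈ w.support, F.co.L * s ≤ F.co.tm z ∧ F.co.tm z ≤ F.co.L * t) {c c' Y : ℝ}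
    (hu : |latV F d u - c| ≤ K1) (hv : |latV F d v - c'| ≤ K1) (hY : exc F d η w ≤ Y) :
    η ∈ Pass F d k1 s t c c' (Y + CL F k1 K1) := by
  obtain ⟨P, Q, h1, h2⟩ := piece_lat hd hk η w hw
  refine ⟨P, Q, h1, ?_⟩
  have h3 : |lat d P - c| ≤ |latV F d u - lat d P| + K1 := by
    have := abs_sub_le (lat d P) (latV F d u) c
    rw [abs_sub_comm (lat d P) (latV F d u)] at this
    linarith
  have h4 : |lat d Q - c'| ≤ |latV F d v - lat d Q| + K1 := by
    have := abs_sub_le (lat d Q) (latV F d v) c'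
    rw [abs_sub_comm (lat d Q) (latV F d v)] at this
    linarith
  have h5 := mul_le_mul_of_nonneg_left (add_le_add h3 h4) hk.k0.le
  unfold CL
  nlinarith

theorem walk_luck (hd : Adm F κ d) (hk : Lat F κ k1 K1 d) (η : Env) {s t : ℤ} {u v : V} (w : grid.Walk u v)
    (hw : ∀ z ∈ w.support, F.co.L * s ≤ F.co.tm z ∧ F.co.tm z ≤ F.co.L * t) {c G : ℝ}
    (hu : |latV F d u - c| ≤ K1) (hG : exc F d η w ≤ -(G + CL F k1 K1)) :
    η ∈ Luck F d k1 s t c G := by
  obtain ⟨P, Q, h1, h2⟩ := piece_lat hd hk η w hw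
  refine ⟨P, Q, h1, ?_⟩
  have h3 : |lat d P - c| ≤ |latV F d u - lat d P| + K1 := by
    have := abs_sub_le (lat d P) (latV F d u) c
    rw [abs_sub_comm (lat d P) (latV F d u)] at this
    linarith
  have h4 : 0 ≤ k1 * |latV F d v - lat d Q| := mul_nonneg hk.k0.le (abs_nonneg _)
  have h5 := mul_le_mul_of_nonneg_left h3 hk.k0.le
  have h6 : 0 ≤ k1 * K1 := mul_nonneg hk.k0.le (by linarith [hk.K0])
  unfold CL at hG
  nlinarith

/-- **The deterministic part.** A cheap walk which leaves the tube. -/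
theorem tube_det (hd : Adm F κ d) (hk : Lat F κ k1 K1 d) (η : Env) {s t : ℤ} {x y : V} (w : grid.Walk x y)
    (hw : ∀ z ∈ w.support, F.co.L * s ≤ F.co.tm z ∧ F.co.tm z ≤ F.co.L * t) {D Y G : ℝ} (hx : |latV F d x| < D)
    (hz : ∃ z ∈ w.support, D ≤ |latV F d z|) (hY : exc F d η w ≤ Y) {τ : ℝ} (hτ : τ = 1 ∨ τ = -1) :
    η ∈ Pass F d k1 s t (latV F d x) (τ * D) (Y + G + 2 * CL F k1 K1) ∨
      η ∈ Pass F d k1 s t (-(τ * D)) (latV F d y) (Y + G + 2 * CL F k1 K1) ∨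
      η ∈ Luck F d k1 s t (τ * D) G ∨ η ∈ Luck F d k1 s t (latV F d x) G := by
  obtain ⟨σ, v, w1, w2, hσ, hv, he, hs1, hs2⟩ := tube_cut hk η w hx hz
  have hK0 : 0 ≤ K1 := by linarith [hk.K0]
  have h0 : ∀ r : ℝ, |r - r| ≤ K1 := by
    intro r
    rw [sub_self, abs_zero]
    exact hK0
  by_cases hcase : σ = τ
  · subst hcase
    by_cases h2 : exc F d η w2 ≤ -(G + CL F k1 K1)
    · exact Or.inr (Or.inr (Or.inl (walk_luck hd hk η w2 (fun z hz => hw z (hs2 z hz)) hv h2)))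
    · push Not at h2
      left
      have := walk_pass hd hk η w1 (fun z hz => hw z (hs1 z hz)) (c := latV F d x) (c' := σ * D) (h0 _) hv
        (Y := Y + G + CL F k1 K1) (by linarith)
      have e5 : Y + G + CL F k1 K1 + CL F k1 K1 = Y + G + 2 * CL F k1 K1 := by ring
      rwa [e5] at this
  · have hσ' : σ * D = -(τ * D) := by
      rcases hσ with rfl | rfl <;> rcases hτ with rfl | rfl
      · exact absurd rfl hcase
      · ring
      · ring
      · exact absurd rfl hcase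
    rw [hσ'] at hv
    by_cases h1 : exc F d η w1 ≤ -(G + CL F k1 K1)
    · exact Or.inr (Or.inr (Or.inr (walk_luck hd hk η w1 (fun z hz => hw z (hs1 z hz)) (h0 _) h1)))
    · push Not at h1
      right; left
      have := walk_pass hd hk η w2 (fun z hz => hw z (hs2 z hz)) (c := -(τ * D)) (c' := latV F d y) hv (h0 _)
        (Y := Y + G + CL F k1 K1) (by linarith)
      have e5 : Y + G + CL F k1 K1 + CL F k1 K1 = Y + G + 2 * CL F k1 K1 := by ring
      rwa [e5] at this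

/-! ### Probabilities -/

theorem XP_le_lat (hd : Adm F κ d) (hk0 : 0 < k1) (η : Env) {n : ℕ} {P Q : Pt} (h : IsPr 0 n P Q) {x Y Λ : ℝ}
    (hY : XP F d η P Q + k1 * x ≤ Y) (hΛ : Y + bb F * F.co.L * n ≤ k1 * Λ) : x ≤ Λ := by
  have h1 := XP_ge' hd η h
  push_cast at h1
  rw [sub_zero] at h1
  have h2 : k1 * x ≤ k1 * Λ := by linarith
  exact le_of_mul_le_mul_left h2 hk0

/-- A passage is extended to a fixed displacement. -/
theorem pass_prob (hd : Adm F κ d) (hk0 : 0 < k1) {n : ℕ} {O Z : Pt} (hO : O.1 < 0) (hZ : (n : ℤ) < Z.1) {c c' a Y Λ : ℝ}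
    (hΛ : Y + bb F * F.co.L * n ≤ k1 * Λ)
    (h1 : ∀ P : Pt, 0 ≤ P.1 → P.1 ≤ n → |lat d P - c| ≤ Λ → 3 / 4 ≤ (law F).real {η | XP F d η O P ≤ a + k1 * |lat d P - c|})
    (h2 : ∀ Q : Pt, 0 ≤ Q.1 → Q.1 ≤ n → |lat d Q - c'| ≤ Λ →
      3 / 4 ≤ (law F).real {η | XP F d η Q Z ≤ a + k1 * |lat d Q - c'|}) :
    9 / 16 * (law F).real (Pass F d k1 0 n c c' Y) ≤ (law F).real {η | XP F d η O Z ≤ Y + 2 * a} := by
  have hg := gen (sl_of hd) (s := 0) (t := n) (O := O) hO (Z := fun _ => Z) (SP := {P | |lat d P - c| ≤ Λ})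
    (SQ := {Q | |lat d Q - c'| ≤ Λ}) (fun _ _ _ => hZ) (φ := fun P => k1 * |lat d P - c|) (ψ := fun Q => k1 * |lat d Q - c'|)
    (a := a) (b := a) (y := -Y) (fun P hP h3 h4 => h1 P h3 h4 hP) (fun Q hQ h3 h4 => h2 Q h3 h4 hQ)
  refine le_trans (mul_le_mul_of_nonneg_left (measureReal_mono ?_ (measure_ne_top _ _)) (by norm_num))
    (hg.trans (measureReal_mono ?_ (measure_ne_top _ _)))
  · rintro η ⟨P, Q, h3, h4⟩
    have h5 := abs_nonneg (lat d P - c)
    have h6 := abs_nonneg (lat d Q - c')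
    have h7 := XP_le_lat hd hk0 η h3 h4 hΛ
    refine ⟨P, Q, ?_, ?_, h3, ?_⟩
    · show |lat d P - c| ≤ Λ
      linarith
    · show |lat d Q - c'| ≤ Λ
      linarith
    · show -Y ≤ -XP F d η P Q - k1 * |lat d P - c| - k1 * |lat d Q - c'|
      linarith
  · rintro η ⟨Q, -, -, -, h3⟩
    show XP F d η O Z ≤ Y + 2 * a
    linarith

/-- A lucky pair is extended to a fixed start and a free end. -/
theorem luck_prob (hd : Adm F κ d) (hk0 : 0 < k1) {n : ℕ} {O : Pt} (hO : O.1 < 0) {Z : Pt → Pt} {T : ℕ} (hT : (n : ℤ) < T)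
    (hZ : ∀ Q, (Z Q).1 = T) {c a b G Λ : ℝ} (hΛ : -G + bb F * F.co.L * n ≤ k1 * Λ)
    (h1 : ∀ P : Pt, 0 ≤ P.1 → P.1 ≤ n → |lat d P - c| ≤ Λ → 3 / 4 ≤ (law F).real {η | XP F d η O P ≤ a + k1 * |lat d P - c|})
    (h2 : ∀ Q : Pt, 0 ≤ Q.1 → Q.1 ≤ n → 3 / 4 ≤ (law F).real {η | XP F d η Q (Z Q) ≤ b}) :
    9 / 16 * (law F).real (Luck F d k1 0 n c G) ≤ (law F).real {η | G - a - b ≤ VV F d η O ((T : ℤ) - O.1).toNat} := by
  have hg := gen (sl_of hd) (s := 0) (t := n) (O := O) hO (Z := Z) (SP := {P | |lat d P - c| ≤ Λ})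
    (SQ := Set.univ) (fun Q _ _ => by rw [hZ]; exact hT) (φ := fun P => k1 * |lat d P - c|) (ψ := fun _ => 0)
    (a := a) (b := b) (y := G) (fun P hP h3 h4 => h1 P h3 h4 hP) (fun Q _ h3 h4 => by
      simp only [add_zero]
      exact h2 Q h3 h4)
  refine le_trans (mul_le_mul_of_nonneg_left (measureReal_mono ?_ (measure_ne_top _ _)) (by norm_num))
    (hg.trans (measureReal_mono ?_ (measure_ne_top _ _)))
  · rintro η ⟨P, Q, h3, h4⟩
    have h5 := abs_nonneg (lat d P - c)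
    have h7 := XP_le_lat hd hk0 η h3 (Y := -G) (by linarith) hΛ
    refine ⟨P, Q, h7, Set.mem_univ _, h3, ?_⟩
    show G ≤ -XP F d η P Q - k1 * |lat d P - c| - 0
    linarith
  · rintro η ⟨Q, -, -, -, h3⟩
    show G - a - b ≤ VV F d η O ((T : ℤ) - O.1).toNat
    refine h3.trans ?_
    have h4 : 1 ≤ ((T : ℤ) - O.1).toNat := by omega
    have h5 := le_ciSup (VV_bdd hd η O h4) ((Z Q).2 - O.2)
    unfold XP
    rw [hZ]
    exact h5

end Pool.Agent.W_1b8d5d_h57p
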